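import Pool.Agent.H865_cl.Close

/-!
# The retracted averages are local diffeomorphisms for small radii: the bad points
-/

set_option autoImplicit false

open Set Filter Topology Metric Function MeasureTheory
open scoped Manifold ContDiff

noncomputable section

namespace Pool.Agent.H865_cl

open Pool.Agent.Y522 (LD)
open Pool.Agent.H865_small (E Zs kf om ps_zero ps_nonneg kf_cont kf_contDiff bump_supp param_smooth param_fderiv
  param_eval int_ineq int_bound Zs_smooth Adm Imm exists_chartB imm_smooth LD_of_inj LD_of_comp all_dirs emb_near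
  emb_near' Zs_pos chart_alt lower_lip q_smooth)

/-- Near `x`, at all small scales `s ∈ S`, every linear coordinate of `e` in a tangent direction is recovered up to
`η s` by an affine function of `F` whose variation is at most `C s`. -/
def TRecT {n m k : ℕ} {X : Type} [TopologicalSpace X] [ChartedSpace (E n) X] (e : X → E m) (F : X → E k) (S : Set ℝ)
    (η : ℝ) (x : X) : Prop :=
  ∀ (B : E n → X) (ζ : E n), B ζ = x → Injective B → (∀ z, LD n B z) → ∀ v : E n, v ≠ 0 → ∃ C : ℝ,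
    ∀ᶠ t : ℝ × E n × E n in 𝓝[>] 0 ×ˢ 𝓝 ζ ×ˢ 𝓝 v, t.1 ∈ S → ∃ (ℓ : E k →L[ℝ] ℝ) (c : ℝ), ∀ u : X,
      ‖e u - e (B t.2.1)‖ ≤ t.1 →
        |ℓ (F u) + c - inner ℝ (fderiv ℝ (fun z => e (B z)) t.2.1 t.2.2) (e u - e (B t.2.1))| ≤
          η * t.1 * ‖fderiv ℝ (fun z => e (B z)) t.2.1 t.2.2‖ ∧ ‖ℓ‖ * ‖F u - F (B t.2.1)‖ ≤ C * t.1

variable {n m k : ℕ} {ρ : ℝ} {β : E n → ℝ} {X : Type} [TopologicalSpace X] {ι : Type} [Fintype ι] {e : X → E m}
  {B : ι → E n → X} [ChartedSpace (E n) X] {N : Type} [TopologicalSpace N] [ChartedSpace (E n) N]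
  [IsManifold (𝓡 n) ∞ N] {j : N → E k} {g : X → N}

theorem local_bad2 (h1 : ρ ^ 2 < 1) {η0 η : ℝ} (hηη : η0 < η) (hA : Adm n ρ η)
    (hβ : Continuous β) (hβ0 : ∀ z, 0 ≤ β z) (hβs : ∀ z, 1 < ‖z‖ → β z = 0) (hβp : ∀ z, ‖z‖ < 1 → 0 < β z)
    (he : IsEmbedding e) (hI : ∀ x, Imm (n := n) e x) (hg : Continuous g) (hj : Continuous j)
    (hJ : ∀ y, Imm (n := n) j y) (hBi : ∀ i, Injective (B i)) (hBl : ∀ i z, LD n (B i) z)
    {π : E k → N} {Ω : Set (E k)} (hΩ : IsOpen Ω) (hjΩ : range j ⊆ Ω) (hπj : ∀ y, π (j y) = y)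
    (hπc : ∀ z ∈ Ω, ContinuousAt π z) (hπs : ∀ z ∈ Ω, ContDiffAt ℝ ∞ (fun z => j (π z)) z)
    (i0 : ι) {ζ : E n} (hζ : ‖ζ‖ < 1) {S : Set ℝ} (hrec : TRecT (n := n) e (fun x => j (g x)) S η0 (B i0 ζ)) :
    ∀ᶠ t : ℝ × E n in 𝓝[>] 0 ×ˢ 𝓝 ζ, t.1 ∈ S →
      LD n (fun x => π (Gs ρ β (fun i z => e (B i z)) (fun i z => j (g (B i z))) t.1 (e x))) (B i0 t.2) := by
  have hBc : ∀ i, Continuous (B i) := fun i => continuous_iff_continuousAt.2 fun z => (hBl i z).continuousAt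
  have hq : ∀ i, ContDiff ℝ ∞ (fun z => e (B i z)) := q_smooth hI hBl
  have hqd : ∀ i z, Injective (fderiv ℝ (fun z => e (B i z)) z) := fun i z => (imm_smooth (hI _) (hBl i z)).2
  have hqi : ∀ i, Injective (fun z => e (B i z)) := fun i => he.injective.comp (hBi i)
  have hF : Continuous fun x => j (g x) := hj.comp hg
  have hgc : ∀ i, Continuous (fun z => j (g (B i z))) := fun i => hF.comp (hBc i)
  have hball : ∀ᶠ y in 𝓝 ζ, ‖y‖ < 1 := by
    have := isOpen_ball.mem_nhds (show ζ ∈ ball (0 : E n) 1 by rw [mem_ball_zero_iff]; exact hζ)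
    filter_upwards [this] with y hy
    rwa [mem_ball_zero_iff] at hy
  obtain ⟨x0, hx0⟩ : ∃ x0, x0 = B i0 ζ := ⟨_, rfl⟩
  have htend : Tendsto (fun t : ℝ × E n => Gs ρ β (fun i z => e (B i z)) (fun i z => j (g (B i z))) t.1 (e (B i0 t.2)))
      (𝓝[>] 0 ×ˢ 𝓝 ζ) (𝓝 (j (g (B i0 ζ)))) :=
    Gs_tendsto (F := fun x => j (g x)) h1 hβ hβ0 hβs hβp he hF hBc i0 hζ
  have hΩev : ∀ᶠ t : ℝ × E n in 𝓝[>] 0 ×ˢ 𝓝 ζ,
      Gs ρ β (fun i z => e (B i z)) (fun i z => j (g (B i z))) t.1 (e (B i0 t.2)) ∈ Ω :=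
    htend.eventually (hΩ.mem_nhds (hjΩ (mem_range_self _)))
  have hRp : ContDiffAt ℝ ∞ (fun z => j (π z)) (j (g (B i0 ζ))) := hπs _ (hjΩ (mem_range_self _))
  have hkey : ∀ᶠ t : ℝ × E n in 𝓝[>] 0 ×ˢ 𝓝 ζ, ∀ v : E n, ‖v‖ = 1 → t.1 ∈ S →
      fderiv ℝ (fun z => j (π z)) (Gs ρ β (fun i z => e (B i z)) (fun i z => j (g (B i z))) t.1 (e (B i0 t.2)))
        (fderiv ℝ (Gs ρ β (fun i z => e (B i z)) (fun i z => j (g (B i z))) t.1) (e (B i0 t.2))
          (fderiv ℝ (fun z => e (B i0 z)) t.2 v)) ≠ 0 := by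
    refine all_dirs (P := fun s y v => s ∈ S →
      fderiv ℝ (fun z => j (π z)) (Gs ρ β (fun i z => e (B i z)) (fun i z => j (g (B i z))) s (e (B i0 y)))
        (fderiv ℝ (Gs ρ β (fun i z => e (B i z)) (fun i z => j (g (B i z))) s)
      (e (B i0 y)) (fderiv ℝ (fun z => e (B i0 z)) y v)) ≠ 0) fun v hv => ?_
    have hv0 : v ≠ 0 := by
      rw [← norm_pos_iff, hv]; exact one_pos
    obtain ⟨c0, hc0, hlow⟩ := main_low (g := fun i z => j (g (B i z))) h1 hA hβ hβ0 hβs hq hgc hqi hqd i0 hζ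
      (hβp ζ hζ) hv0 (fun i => chart_alt he.injective (hBl i) (hBl i0) (hq i) ζ v)
    obtain ⟨C, hrecv⟩ := hrec (B i0) ζ rfl (hBi i0) (hBl i0) v hv0
    have hfst : Tendsto (fun t : ℝ × E n × E n => (t.1, t.2.1)) (𝓝[>] 0 ×ˢ 𝓝 ζ ×ˢ 𝓝 v) (𝓝[>] 0 ×ˢ 𝓝 ζ) :=
      tendsto_fst.prodMk (tendsto_fst.comp tendsto_snd)
    obtain ⟨V, hV⟩ : ∃ V, V = fderiv ℝ (fun z => e (B i0 z)) ζ v := ⟨_, rfl⟩
    have hV0 : V ≠ 0 := by
      intro h
      apply hv0
      apply hqd i0 ζ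
      rw [map_zero, ← hV, h]
    have hVn : 0 < ‖V‖ := norm_pos_iff.2 hV0
    have tV : Tendsto (fun t : ℝ × E n × E n => fderiv ℝ (fun z => e (B i0 z)) t.2.1 t.2.2)
        (𝓝[>] 0 ×ˢ 𝓝 ζ ×ˢ 𝓝 v) (𝓝 V) := by
      have h1 : Continuous fun p : E n × E n => fderiv ℝ (fun z => e (B i0 z)) p.1 p.2 :=
        (((hq i0).continuous_fderiv (by simp)).comp continuous_fst).clm_apply continuous_snd
      have h2 := h1.tendsto (ζ, v)
      rw [nhds_prod_eq] at h2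
      rw [hV]
      exact h2.comp tendsto_snd
    -- the accuracy
    obtain ⟨w, hw⟩ : ∃ w, w = (η - η0) * (‖V‖ / 2) / (|C| + 1) := ⟨_, rfl⟩
    have hwp : 0 < w := by
      rw [hw]
      have : 0 < η - η0 := by linarith
      positivity
    have hwC : w * |C| ≤ (η - η0) * (‖V‖ / 2) := by
      have h2 : w * (|C| + 1) = (η - η0) * (‖V‖ / 2) := by
        rw [hw]; field_simp
      nlinarith
    obtain ⟨δ, hδ, hδ2⟩ := retr_diff hRp hwp
    have hU : (fun x => j (g x)) ⁻¹' (ball (j (g (B i0 ζ))) δ) ∈ 𝓝 (B i0 ζ) := hF.continuousAt (ball_mem_nhds _ hδ)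
    have hUy : ∀ᶠ y in 𝓝 ζ, ‖j (g (B i0 y)) - j (g (B i0 ζ))‖ < δ := by
      have h2 : ContinuousAt (fun y => j (g (B i0 y))) ζ := (hgc i0).continuousAt
      filter_upwards [h2 (ball_mem_nhds _ hδ)] with y hy
      rw [mem_preimage, mem_ball, dist_eq_norm] at hy
      exact hy
    have hz : ∀ᶠ t : ℝ × E n in 𝓝[>] 0 ×ˢ 𝓝 ζ,
        ‖Gs ρ β (fun i z => e (B i z)) (fun i z => j (g (B i z))) t.1 (e (B i0 t.2)) - j (g (B i0 ζ))‖ < δ := by
      filter_upwards [htend (ball_mem_nhds _ hδ)] with t ht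
      rw [mem_preimage, mem_ball, dist_eq_norm] at ht
      exact ht
    have hpos : ∀ᶠ t : ℝ × E n × E n in 𝓝[>] 0 ×ˢ 𝓝 ζ ×ˢ 𝓝 v, 0 < t.1 :=
      (tendsto_fst (f := 𝓝[>] (0 : ℝ)) (g := 𝓝 ζ ×ˢ 𝓝 v)).eventually self_mem_nhdsWithin
    filter_upwards [hlow, hrecv, hfst.eventually (tendsto_snd.eventually hball),
      hfst.eventually (emb_near he (hBc i0).continuousAt hU), hfst.eventually (tendsto_snd.eventually hUy),
      hfst.eventually hz, hpos, tV.norm.eventually (lt_mem_nhds (show ‖V‖ / 2 < ‖V‖ by linarith))]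
      with t ht hr htb ht4 ht5 ht6 ht7 ht8 htS hcon
    obtain ⟨ℓ, c, hℓ⟩ := hr htS
    obtain ⟨z0, hz0⟩ : ∃ z0, z0 = Gs ρ β (fun i z => e (B i z)) (fun i z => j (g (B i z))) t.1 (e (B i0 t.2.1)) :=
      ⟨_, rfl⟩
    rw [← hz0] at hcon ht6
    have h3 := ht (Zs_pos h1 hβ hβ0 hβs hβp (fun i => (hq i).continuous) i0 htb)
      (ℓ.comp (fderiv ℝ (fun z => j (π z)) z0))
      (c + ℓ (j (g (B i0 t.2.1))) - (ℓ.comp (fderiv ℝ (fun z => j (π z)) z0)) (j (g (B i0 t.2.1))))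
      (fun i z _ hz2 => by
        obtain ⟨h4, h5⟩ := hℓ (B i z) hz2
        have h6 : ‖j (g (B i z)) - j (g (B i0 ζ))‖ < δ := by
          have := ht4 _ hz2
          rw [mem_preimage, mem_ball, dist_eq_norm] at this
          exact this
        have h7 := hδ2 z0 (j (g (B i z))) (j (g (B i0 t.2.1))) ht6 h6 ht5 (by rw [hπj]) (by rw [hπj])
        have h8 := move_rec (R := fun z => j (π z)) h4 (h5.trans
          (mul_le_mul_of_nonneg_right (le_abs_self C) ht7.le)) hwp.le h7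
        refine h8.trans ?_
        have h9 : w * (|C| * t.1) ≤ (η - η0) * ‖fderiv ℝ (fun z => e (B i0 z)) t.2.1 t.2.2‖ * t.1 := by
          rw [← mul_assoc]
          refine mul_le_mul_of_nonneg_right (hwC.trans ?_) ht7.le
          exact mul_le_mul_of_nonneg_left ht8.le (by linarith)
        nlinarith)
    rw [ContinuousLinearMap.comp_apply, hcon, map_zero] at h3
    exact absurd h3 (not_le.2 hc0)
  filter_upwards [hkey, tendsto_snd.eventually hball, hΩev] with t ht htb htΩ htS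
  have hGs : ∀ y : E n, ‖y‖ < 1 →
      ContDiffAt ℝ ∞ (Gs ρ β (fun i z => e (B i z)) (fun i z => j (g (B i z))) t.1) (e (B i0 y)) := fun y hy =>
    Gs_smooth (g := fun i z => j (g (B i z))) hβ hβs hq hgc t.1
      (Zs_pos (q := fun i z => e (B i z)) h1 hβ hβ0 hβs hβp (fun i => (hq i).continuous) i0 hy).ne'
  have hGB : ∀ y : E n, ‖y‖ < 1 → ContDiffAt ℝ ∞
      (fun z => Gs ρ β (fun i z => e (B i z)) (fun i z => j (g (B i z))) t.1 (e (B i0 z))) y := fun y hy =>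
    ContDiffAt.comp (g := Gs ρ β (fun i z => e (B i z)) (fun i z => j (g (B i z))) t.1)
      (f := fun z => e (B i0 z)) y (hGs y hy) (hq i0).contDiffAt
  refine LD_of_imm (j := j) hJ (hBl i0 t.2) ?_ ?_ ?_
  · have h2 : ContinuousAt (fun x => Gs ρ β (fun i z => e (B i z)) (fun i z => j (g (B i z))) t.1 (e x))
        (B i0 t.2) := ContinuousAt.comp (f := e) (hGs t.2 htb).continuousAt he.continuous.continuousAt
    exact ContinuousAt.comp (g := π)
      (f := fun x => Gs ρ β (fun i z => e (B i z)) (fun i z => j (g (B i z))) t.1 (e x)) (hπc _ htΩ) h2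
  · have hbt : ∀ᶠ y in 𝓝 t.2, ‖y‖ < 1 := by
      have := isOpen_ball.mem_nhds (show t.2 ∈ ball (0 : E n) 1 by rw [mem_ball_zero_iff]; exact htb)
      filter_upwards [this] with y hy
      rwa [mem_ball_zero_iff] at hy
    have hΩt : ∀ᶠ y in 𝓝 t.2, Gs ρ β (fun i z => e (B i z)) (fun i z => j (g (B i z))) t.1 (e (B i0 y)) ∈ Ω :=
      (hGB t.2 htb).continuousAt (hΩ.mem_nhds htΩ)
    filter_upwards [hbt, hΩt] with y hy hyΩ
    exact ContDiffAt.comp (g := fun z => j (π z)) y (hπs _ hyΩ) (hGB y hy)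
  · intro v hv
    have h2 : HasFDerivAt (fun z => Gs ρ β (fun i z => e (B i z)) (fun i z => j (g (B i z))) t.1 (e (B i0 z)))
        ((fderiv ℝ (Gs ρ β (fun i z => e (B i z)) (fun i z => j (g (B i z))) t.1) (e (B i0 t.2))).comp
          (fderiv ℝ (fun z => e (B i0 z)) t.2)) t.2 :=
      HasFDerivAt.comp (g := Gs ρ β (fun i z => e (B i z)) (fun i z => j (g (B i z))) t.1)
        (f := fun z => e (B i0 z)) t.2 ((hGs t.2 htb).differentiableAt (by simp)).hasFDerivAt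
        ((hq i0).differentiable (by simp) _).hasFDerivAt
    have h3 := HasFDerivAt.comp (g := fun z => j (π z))
      (f := fun z => Gs ρ β (fun i z => e (B i z)) (fun i z => j (g (B i z))) t.1 (e (B i0 z))) t.2
      ((hπs _ htΩ).differentiableAt (by simp)).hasFDerivAt h2
    have h4 : (fun z => j (π (Gs ρ β (fun i z => e (B i z)) (fun i z => j (g (B i z))) t.1 (e (B i0 z))))) =
      (fun z => j (π z)) ∘ (fun z => Gs ρ β (fun i z => e (B i z)) (fun i z => j (g (B i z))) t.1 (e (B i0 z))) := rfl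
    rw [h4, h3.fderiv]
    exact ht v hv htS

end Pool.Agent.H865_cl
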