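import Pool.Agent.H865_small.Chart

/-!
# Maps to a submanifold: criterion for local diffeomorphisms
-/

set_option autoImplicit false

open Set Filter Topology Metric Function
open scoped Manifold ContDiff

noncomputable section

namespace Pool.Agent.H865_cl

open Pool.Agent.Y522 (LD)
open Pool.Agent.H865_small (E Imm exists_chartB imm_smooth LD_of_inj LD_of_comp)

variable {n k : ℕ} {X N : Type} [TopologicalSpace X] [ChartedSpace (E n) X] [TopologicalSpace N]
  [ChartedSpace (E n) N] [IsManifold (𝓡 n) ∞ N] {j : N → E k}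

theorem LD_of_imm {G : X → N} {B0 : E n → X} {ζ : E n} (hI : ∀ y, Imm (n := n) j y) (hB : LD n B0 ζ)
    (hG : ContinuousAt G (B0 ζ)) (hs : ∀ᶠ z in 𝓝 ζ, ContDiffAt ℝ ∞ (fun z => j (G (B0 z))) z)
    (hd : ∀ v, ‖v‖ = 1 → fderiv ℝ (fun z => j (G (B0 z))) ζ v ≠ 0) : LD n G (B0 ζ) := by
  obtain ⟨A, hA0, hAi, hAl⟩ := exists_chartB (n := n) (G (B0 ζ))
  have hq : ContDiff ℝ ∞ (fun z => j (A z)) := contDiff_iff_contDiffAt.2 fun z => (imm_smooth (hI _) (hAl z)).1
  obtain ⟨D, hD⟩ : ∃ D, D = fderiv ℝ (fun z => j (A z)) 0 := ⟨_, rfl⟩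
  have hDi : Injective D := by rw [hD]; exact (imm_smooth (hI _) (hAl 0)).2
  obtain ⟨T0, hT0⟩ := LinearMap.exists_leftInverse_of_injective D.toLinearMap (LinearMap.ker_eq_bot.2 hDi)
  obtain ⟨T, hT⟩ : ∃ T : E k →L[ℝ] E n, ∀ w, T (D w) = w :=
    ⟨LinearMap.toContinuousLinearMap T0, fun w => congrArg (fun f : E n →ₗ[ℝ] E n => f w) hT0⟩
  have hTq : LD n (fun z => T (j (A z))) 0 := by
    refine LD_of_inj (Filter.Eventually.of_forall fun z => ?_) fun v hv => ?_
    · exact (T.contDiff.comp hq).contDiffAt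
    · have h1 : HasFDerivAt (fun z => T (j (A z))) (T.comp D) 0 := by
        rw [hD]
        exact T.hasFDerivAt.comp (0 : E n) (hq.differentiable (by simp) 0).hasFDerivAt
      rw [h1.fderiv, ContinuousLinearMap.comp_apply, hT]
      intro h0
      rw [h0, norm_zero] at hv
      exact zero_ne_one hv
  obtain ⟨r, hr, hr0, hr1, -⟩ := hTq.exists_inverse
  obtain ⟨a, ha, ha0, -, ha2⟩ := (hAl 0).exists_inverse
  rw [hA0] at ha ha0 ha2
  have hBc : ContinuousAt B0 ζ := hB.continuousAt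
  have hGB : Tendsto (fun z => G (B0 z)) (𝓝 ζ) (𝓝 (G (B0 ζ))) := hG.comp (f := B0) hBc
  have hwt : Tendsto (fun z => a (G (B0 z))) (𝓝 ζ) (𝓝 0) := by
    have h1 := ha.continuousAt.tendsto
    rw [ha0] at h1
    exact h1.comp hGB
  have h1 : ∀ᶠ z in 𝓝 ζ, A (a (G (B0 z))) = G (B0 z) := hGB.eventually ha2
  have h2 : ∀ᶠ z in 𝓝 ζ, r (T (j (G (B0 z)))) = a (G (B0 z)) := by
    filter_upwards [hwt.eventually hr1, h1] with z hz1 hz2
    rw [hz2] at hz1
    exact hz1
  have hrs : ∀ᶠ z in 𝓝 ζ, ContDiffAt ℝ ∞ r (T (j (G (B0 z)))) := by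
    have h3 : ∀ᶠ y in 𝓝 (T (j (A 0))), ContDiffAt ℝ ∞ r y := hr.eventually.mono fun y hy => hy.contDiffAt
    have h4 : ContinuousAt (fun z => j (G (B0 z))) ζ := hs.self_of_nhds.continuousAt
    have h5 : Tendsto (fun z => T (j (G (B0 z)))) (𝓝 ζ) (𝓝 (T (j (A 0)))) := by
      rw [hA0]
      exact T.continuous.continuousAt.comp (f := fun z => j (G (B0 z))) h4
    exact h5.eventually h3
  have hw : ∀ᶠ z in 𝓝 ζ, ContDiffAt ℝ ∞ (fun z => a (G (B0 z))) z := by
    filter_upwards [h2.eventually_nhds, hrs, hs] with z hz1 hz2 hz3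
    have h3 : ContDiffAt ℝ ∞ (fun z => r (T (j (G (B0 z))))) z :=
      hz2.comp (f := fun z => T (j (G (B0 z)))) z (T.contDiff.contDiffAt.comp (f := fun z => j (G (B0 z))) z hz3)
    exact h3.congr_of_eventuallyEq (hz1.mono fun _ h => h.symm)
  have hwL : LD n (fun z => a (G (B0 z))) ζ := by
    refine LD_of_inj hw fun v hv h0 => hd v hv ?_
    have h3 : (fun z => j (G (B0 z))) =ᶠ[𝓝 ζ] fun z => j (A (a (G (B0 z)))) := by
      filter_upwards [h1] with z hz
      rw [hz]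
    have h4 : HasFDerivAt (fun z => j (A (a (G (B0 z)))))
        ((fderiv ℝ (fun z => j (A z)) (a (G (B0 ζ)))).comp (fderiv ℝ (fun z => a (G (B0 z))) ζ)) ζ :=
      HasFDerivAt.comp (g := fun z => j (A z)) (f := fun z => a (G (B0 z))) ζ
        (hq.differentiable (by simp) _).hasFDerivAt (hw.self_of_nhds.differentiableAt (by simp)).hasFDerivAt
    rw [h3.fderiv_eq, h4.fderiv, ContinuousLinearMap.comp_apply, h0, map_zero]
  -- conclusion
  obtain ⟨p, hp, hp0, -, hp2⟩ := hB.exists_inverse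
  have h3 : LD n (fun y => A (a (G (B0 (p y))))) (B0 ζ) := by
    have h4 : LD n (fun z => a (G (B0 z))) (p (B0 ζ)) := by rw [hp0]; exact hwL
    have h5 : LD n (fun y => a (G (B0 (p y)))) (B0 ζ) :=
      Pool.Agent.Y522.LD.comp_fun (g := fun z => a (G (B0 z))) h4 hp
    exact Pool.Agent.Y522.LD.comp_fun (g := A) (hAl _) h5
  refine h3.congr ?_
  have h6 : ∀ᶠ y in 𝓝 (B0 ζ), A (a (G y)) = G y := hG.eventually ha2
  filter_upwards [hp2, h6] with y hy1 hy2
  rw [hy1, hy2]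

end Pool.Agent.H865_cl
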