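import Pool.Agent.H865_cl.Main2
import Pool.Agent.H865_cl.Crit
import Pool.Agent.H865_small.Glob2

/-!
# The averages of maps to a submanifold
-/

set_option autoImplicit false

open Set Filter Topology Metric Function MeasureTheory
open scoped Manifold ContDiff

noncomputable section

namespace Pool.Agent.H865_cl

open Pool.Agent.Y522 (LD)
open Pool.Agent.H865_small (E Zs kf om ps_zero ps_nonneg kf_cont kf_contDiff bump_supp param_smooth param_fderiv
  param_eval int_ineq int_bound Zs_smooth Adm Imm exists_chartB imm_smooth LD_of_inj LD_of_comp all_dirs emb_near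
  emb_near' Zs_pos chart_alt lower_lip q_smooth)

variable {n m k : ℕ} {ρ : ℝ} {β : E n → ℝ}

theorem Gs_close {ι : Type} [Fintype ι] (h1 : ρ ^ 2 < 1) (hβ : Continuous β) (hβ0 : ∀ z, 0 ≤ β z)
    (hβs : ∀ z, 1 < ‖z‖ → β z = 0)
    {q : ι → E n → E m} {g : ι → E n → E k} (hq : ∀ i, Continuous (q i)) (hg : ∀ i, Continuous (g i))
    {s : ℝ} (hs : 0 < s) {p : E m} (hZ : 0 < Zs ρ β q s p) {c : E k} {ε : ℝ}
    (hc : ∀ i z, ‖z‖ ≤ 1 → ‖q i z - p‖ ≤ s → ‖g i z - c‖ ≤ ε) : ‖Gs ρ β q g s p - c‖ ≤ ε := by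
  have hsupp := bump_supp hβs
  have hk : ∀ i, Continuous fun z => β z * kf ρ s (q i z - p) := by
    intro i
    have hw : Continuous fun z => q i z - p := (hq i).sub continuous_const
    exact hβ.mul ((kf_cont s).comp hw)
  have hks : ∀ i, HasCompactSupport fun z => β z * kf ρ s (q i z - p) := fun i => hsupp.mul_right
  have hint : ∀ i, Integrable fun z => β z * kf ρ s (q i z - p) := fun i =>
    (hk i).integrable_of_hasCompactSupport (hks i)
  have hint2 : ∀ i, Integrable fun z => (β z * kf ρ s (q i z - p)) • g i z := fun i =>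
    ((hk i).smul (hg i)).integrable_of_hasCompactSupport (hks i).smul_right
  have e1 : Ns ρ β q g s p - Zs ρ β q s p • c = ∑ i, ∫ z, (β z * kf ρ s (q i z - p)) • (g i z - c) := by
    unfold Ns Zs
    rw [Finset.sum_smul, ← Finset.sum_sub_distrib]
    refine Finset.sum_congr rfl fun i _ => ?_
    rw [← integral_smul_const, ← integral_sub (hint2 i) ((hint i).smul_const c)]
    congr 1
    funext z
    rw [smul_sub]
  have hterm : ∀ i, ‖∫ z, (β z * kf ρ s (q i z - p)) • (g i z - c)‖ ≤ ε * ∫ z, β z * kf ρ s (q i z - p) := by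
    intro i
    rw [← integral_const_mul]
    refine norm_integral_le_of_norm_le ((hint i).const_mul _) (Eventually.of_forall fun z => ?_)
    have hkn : 0 ≤ β z * kf ρ s (q i z - p) := mul_nonneg (hβ0 z) (ps_nonneg _)
    rw [norm_smul, Real.norm_eq_abs, abs_of_nonneg hkn]
    rcases lt_or_ge 1 ‖z‖ with h | h
    · rw [hβs z h]; simp
    rcases le_or_gt ‖q i z - p‖ s with h2 | h2
    · rw [mul_comm]
      exact mul_le_mul_of_nonneg_right (hc i z h h2) hkn
    · have h3 : 1 ≤ ‖q i z - p‖ ^ 2 / s ^ 2 := by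
        rw [le_div_iff₀ (by positivity)]
        nlinarith
      have e2 : kf ρ s (q i z - p) = 0 := ps_zero h1 h3
      rw [e2]; simp
  have h3 : ‖Ns ρ β q g s p - Zs ρ β q s p • c‖ ≤ ε * Zs ρ β q s p := by
    rw [e1]
    refine (norm_sum_le _ _).trans ((Finset.sum_le_sum fun i _ => hterm i).trans (le_of_eq ?_))
    unfold Zs
    rw [Finset.mul_sum]
  have e3 : Gs ρ β q g s p - c = (Zs ρ β q s p)⁻¹ • (Ns ρ β q g s p - Zs ρ β q s p • c) := by
    unfold Gs
    rw [smul_sub, smul_smul, inv_mul_cancel₀ hZ.ne', one_smul]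
  rw [e3, norm_smul, norm_inv, Real.norm_eq_abs, abs_of_pos hZ, inv_mul_le_iff₀ hZ, mul_comm]
  exact h3


variable {X : Type} [TopologicalSpace X] {ι : Type} [Fintype ι] {e : X → E m} {F : X → E k}
  {B : ι → E n → X}

/-- the averages converge to the map -/
theorem Gs_tendsto [ChartedSpace (E n) X] (h1 : ρ ^ 2 < 1) (hβ : Continuous β) (hβ0 : ∀ z, 0 ≤ β z)
    (hβs : ∀ z, 1 < ‖z‖ → β z = 0) (hβp : ∀ z, ‖z‖ < 1 → 0 < β z)
    (he : IsEmbedding e) (hF : Continuous F) (hBc : ∀ i, Continuous (B i)) (i0 : ι) {ζ : E n} (hζ : ‖ζ‖ < 1) :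
    Tendsto (fun t : ℝ × E n => Gs ρ β (fun i z => e (B i z)) (fun i z => F (B i z)) t.1 (e (B i0 t.2)))
      (𝓝[>] 0 ×ˢ 𝓝 ζ) (𝓝 (F (B i0 ζ))) := by
  rw [Metric.tendsto_nhds]
  intro ε hε
  have hU : F ⁻¹' (closedBall (F (B i0 ζ)) (ε / 2)) ∈ 𝓝 (B i0 ζ) :=
    hF.continuousAt (closedBall_mem_nhds _ (by positivity))
  have hball : ∀ᶠ y in 𝓝 ζ, ‖y‖ < 1 := by
    have := isOpen_ball.mem_nhds (show ζ ∈ ball (0 : E n) 1 by rw [mem_ball_zero_iff]; exact hζ)
    filter_upwards [this] with y hy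
    rwa [mem_ball_zero_iff] at hy
  have hpos : ∀ᶠ t : ℝ × E n in 𝓝[>] (0 : ℝ) ×ˢ 𝓝 ζ, 0 < t.1 :=
    (tendsto_fst (f := 𝓝[>] (0 : ℝ)) (g := 𝓝 ζ)).eventually self_mem_nhdsWithin
  filter_upwards [emb_near he (hBc i0).continuousAt hU, tendsto_snd.eventually hball, hpos] with t ht1 ht2 ht3
  rw [dist_eq_norm]
  refine lt_of_le_of_lt (Gs_close (q := fun i z => e (B i z)) (g := fun i z => F (B i z)) h1 hβ hβ0 hβs
    (fun i => he.continuous.comp (hBc i)) (fun i => hF.comp (hBc i)) ht3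
    (Zs_pos (q := fun i z => e (B i z)) h1 hβ hβ0 hβs hβp (fun i => he.continuous.comp (hBc i)) i0 ht2)
    (c := F (B i0 ζ)) (ε := ε / 2) fun i z _ hz => ?_) (by linarith)
  have h3 := ht1 _ hz
  rw [mem_preimage, mem_closedBall, dist_eq_norm] at h3
  exact h3

/-- the smooth retraction acts almost as the identity on the differences of points of its image -/
theorem retr_diff {R : E k → E k} {p : E k} (hR : ContDiffAt ℝ ∞ R p) {w : ℝ} (hw : 0 < w) :
    ∃ δ : ℝ, 0 < δ ∧ ∀ z a b : E k, ‖z - p‖ < δ → ‖a - p‖ < δ → ‖b - p‖ < δ → R a = a → R b = b →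
      ‖a - b - fderiv ℝ R z (a - b)‖ ≤ w * ‖a - b‖ := by
  have h1 : HasStrictFDerivAt R (fderiv ℝ R p) p := hR.hasStrictFDerivAt (by simp)
  obtain ⟨δ1, hδ1, h2⟩ := Metric.eventually_nhds_iff_ball.1 (h1.isLittleO.def (show 0 < w / 2 by positivity))
  have h3 : ContinuousAt (fderiv ℝ R) p := (hR.fderiv_right (m := 0) (by simp)).continuousAt
  obtain ⟨δ2, hδ2, h4⟩ := Metric.eventually_nhds_iff_ball.1 (h3.eventually (ball_mem_nhds _ (show 0 < w / 2 by positivity)))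
  refine ⟨min δ1 δ2, lt_min hδ1 hδ2, fun z a b hz ha hb hRa hRb => ?_⟩
  have h5 : ‖R a - R b - fderiv ℝ R p (a - b)‖ ≤ w / 2 * ‖a - b‖ := by
    have := h2 (a, b) (by
      rw [mem_ball, Prod.dist_eq]
      refine max_lt ?_ ?_
      · rw [dist_eq_norm]; exact ha.trans_le (min_le_left _ _)
      · rw [dist_eq_norm]; exact hb.trans_le (min_le_left _ _))
    exact this
  have h6 : ‖fderiv ℝ R z - fderiv ℝ R p‖ ≤ w / 2 := by
    have := h4 z (by rw [mem_ball, dist_eq_norm]; exact hz.trans_le (min_le_right _ _))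
    rw [dist_eq_norm] at this
    exact this.le
  rw [hRa, hRb] at h5
  have h7 : a - b - fderiv ℝ R z (a - b) = (a - b - fderiv ℝ R p (a - b)) - (fderiv ℝ R z - fderiv ℝ R p) (a - b) := by
    rw [_root_.sub_apply]; abel
  rw [h7]
  refine (norm_sub_le _ _).trans ?_
  have h8 := (ContinuousLinearMap.le_opNorm (fderiv ℝ R z - fderiv ℝ R p) (a - b)).trans
    (mul_le_mul_of_nonneg_right h6 (norm_nonneg _))
  linarith

/-- the moving functional -/
theorem move_rec {R : E k → E k} {ℓ : E k →L[ℝ] ℝ} {c η C s w : ℝ} {V : E m} {z f0 fu : E k} {x : E m}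
    (h1 : |ℓ fu + c - inner ℝ V x| ≤ η * s * ‖V‖) (h2 : ‖ℓ‖ * ‖fu - f0‖ ≤ C * s) (hw : 0 ≤ w)
    (h3 : ‖fu - f0 - fderiv ℝ R z (fu - f0)‖ ≤ w * ‖fu - f0‖) :
    |(ℓ.comp (fderiv ℝ R z)) fu + (c + ℓ f0 - (ℓ.comp (fderiv ℝ R z)) f0) - inner ℝ V x| ≤
      η * s * ‖V‖ + w * (C * s) := by
  have e1 : (ℓ.comp (fderiv ℝ R z)) fu + (c + ℓ f0 - (ℓ.comp (fderiv ℝ R z)) f0) - inner ℝ V x =
      (ℓ fu + c - inner ℝ V x) - ℓ (fu - f0 - fderiv ℝ R z (fu - f0)) := by
    simp only [ContinuousLinearMap.comp_apply, map_sub]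
    ring
  rw [e1]
  have h4 : |ℓ (fu - f0 - fderiv ℝ R z (fu - f0))| ≤ w * (C * s) := by
    rw [← Real.norm_eq_abs]
    refine (ℓ.le_opNorm _).trans ((mul_le_mul_of_nonneg_left h3 (norm_nonneg _)).trans ?_)
    calc ‖ℓ‖ * (w * ‖fu - f0‖) = w * (‖ℓ‖ * ‖fu - f0‖) := by ring
      _ ≤ w * (C * s) := mul_le_mul_of_nonneg_left h2 hw
  have h5 := abs_sub (ℓ fu + c - inner ℝ V x) (ℓ (fu - f0 - fderiv ℝ R z (fu - f0)))
  linarith

end Pool.Agent.H865_cl
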