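import Pool.Agent.H865_cl.Bad
import Pool.Agent.H865_small.Forms

/-!
# Coarse similarities and bi-Lipschitz maps to a submanifold
-/

set_option autoImplicit false
set_option linter.unusedSectionVars false

open Set Filter Topology Metric Function MeasureTheory
open scoped Manifold ContDiff

noncomputable section

namespace Pool.Agent.H865_cl

open Pool.Agent.Y522 (LD)
open Pool.Agent.H865_small (E Imm imm_smooth emb_near CS BL dir_approx pair_sum polar_ineq)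

variable {n m k : ℕ} {X : Type} [TopologicalSpace X] {e : X → E m} {F : X → E k}

/-- the condition on pairs of points, with a bound -/
def PairT (e : X → E m) (F : X → E k) (S : Set ℝ) (η : ℝ) (x : X) : Prop :=
  ∃ U ∈ 𝓝 x, ∃ r : ℝ, 0 < r ∧ ∃ C : ℝ, ∀ y ∈ U, ∀ s ∈ S, 0 < s → s < r → ∃ μ : ℝ, 0 ≤ μ ∧
    (∀ u ∈ U, ∀ a ∈ U, ‖e u - e y‖ ≤ s → ‖e a - e y‖ ≤ s → μ * ‖F u - F a‖ ^ 2 ≤ C * s ^ 2) ∧
    ∀ u ∈ U, ∀ a ∈ U, ∀ b ∈ U,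
    ‖e u - e y‖ ≤ s → ‖e a - e y‖ ≤ s → ‖e b - e y‖ ≤ s → ∀ δ : ℝ, 0 ≤ δ →
      ‖e u - e a‖ ^ 2 + ‖e u - e b‖ ^ 2 ≤ 4 * (1 + δ) * s ^ 2 →
        |μ * ‖F u - F a‖ ^ 2 - ‖e u - e a‖ ^ 2| + |μ * ‖F u - F b‖ ^ 2 - ‖e u - e b‖ ^ 2| ≤
          4 * η * (1 + δ) * s ^ 2

theorem PairT_of_CS {S : Set ℝ} {η ε : ℝ} {x : X} (hε : 0 ≤ ε) (h : ε * (√2 + ε / 2) ≤ η) (hcs : CS e F S ε x) :
    PairT e F S η x := by
  obtain ⟨U, hU, r, hr, hcs⟩ := hcs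
  refine ⟨U, hU, r, hr, (2 + ε) ^ 2, fun y hy s hsS hs hsr => ?_⟩
  obtain ⟨κ, hκ, hcs⟩ := hcs y hy s hsS hs hsr
  refine ⟨κ ^ 2, by positivity, fun u hu a ha hue hae => ?_, fun u hu a ha b hb hue hae hbe δ hδ hD => ?_⟩
  · have h1 := (abs_le.1 (hcs u hu a ha hue hae)).2
    have h2 : ‖e u - e a‖ ≤ 2 * s := by
      have : e u - e a = (e u - e y) - (e a - e y) := by abel
      rw [this]
      refine (norm_sub_le _ _).trans ?_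
      linarith
    have h3 : κ * ‖F u - F a‖ ≤ (2 + ε) * s := by linarith
    calc κ ^ 2 * ‖F u - F a‖ ^ 2 = (κ * ‖F u - F a‖) ^ 2 := by ring
      _ ≤ ((2 + ε) * s) ^ 2 := pow_le_pow_left₀ (by positivity) h3 2
      _ = (2 + ε) ^ 2 * s ^ 2 := by ring
  obtain ⟨Da, hDa⟩ : ∃ Da, Da = ‖e u - e a‖ := ⟨_, rfl⟩
  obtain ⟨Db, hDb⟩ : ∃ Db, Db = ‖e u - e b‖ := ⟨_, rfl⟩
  obtain ⟨Fa, hFa⟩ : ∃ Fa, Fa = ‖F u - F a‖ := ⟨_, rfl⟩
  obtain ⟨Fb, hFb⟩ : ∃ Fb, Fb = ‖F u - F b‖ := ⟨_, rfl⟩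
  have h1 := hcs u hu a ha hue hae
  have h2 := hcs u hu b hb hue hbe
  have hDa0 : 0 ≤ Da := hDa ▸ norm_nonneg _
  have hDb0 : 0 ≤ Db := hDb ▸ norm_nonneg _
  have hFa0 : 0 ≤ Fa := hFa ▸ norm_nonneg _
  have hFb0 : 0 ≤ Fb := hFb ▸ norm_nonneg _
  rw [← hDa, ← hDb] at hD
  rw [← hDa, ← hFa] at h1
  rw [← hDb, ← hFb] at h2
  rw [← hDa, ← hDb, ← hFa, ← hFb]
  have hsq : ∀ G D : ℝ, 0 ≤ G → 0 ≤ D → |κ * G - D| ≤ ε * s → |κ ^ 2 * G ^ 2 - D ^ 2| ≤ ε * s * (2 * D + ε * s) := by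
    intro G D hG hD h3
    have e1 : κ ^ 2 * G ^ 2 - D ^ 2 = (κ * G - D) * (κ * G + D) := by ring
    have h4 : 0 ≤ κ * G + D := by positivity
    rw [e1, abs_mul, abs_of_nonneg h4]
    refine mul_le_mul h3 ?_ h4 (by positivity)
    have := (abs_le.1 h3).2
    linarith
  have h3 := hsq Fa Da hFa0 hDa0 h1
  have h4 := hsq Fb Db hFb0 hDb0 h2
  have h2s : √2 ^ 2 = (2 : ℝ) := Real.sq_sqrt (by norm_num)
  have h2p : 0 < √(2 : ℝ) := by positivity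
  have h5 : Da + Db ≤ 2 * √2 * (1 + δ) * s := by
    refine abs_le_of_sq_le_sq' (a := Da + Db) (b := 2 * √2 * (1 + δ) * s) ?_ (by positivity) |>.2
    have e1 : (2 * √2 * (1 + δ) * s) ^ 2 = 8 * (1 + δ) ^ 2 * s ^ 2 := by
      rw [show (2 * √2 * (1 + δ) * s) ^ 2 = 4 * √2 ^ 2 * (1 + δ) ^ 2 * s ^ 2 by ring, h2s]
      ring
    rw [e1]
    have h6 : (Da + Db) ^ 2 ≤ 8 * (1 + δ) * s ^ 2 := by nlinarith [sq_nonneg (Da - Db)]
    have h7 : 8 * (1 + δ) * s ^ 2 ≤ 8 * (1 + δ) ^ 2 * s ^ 2 := by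
      have : 0 ≤ δ * (1 + δ) * s ^ 2 := by positivity
      nlinarith
    linarith
  have h8 : ε * s * (2 * Da + ε * s) + ε * s * (2 * Db + ε * s) ≤ 4 * (ε * (√2 + ε / 2)) * (1 + δ) * s ^ 2 := by
    have h9 : ε * s * (2 * (Da + Db)) ≤ ε * s * (2 * (2 * √2 * (1 + δ) * s)) :=
      mul_le_mul_of_nonneg_left (by linarith) (by positivity)
    have h10 : 0 ≤ ε ^ 2 * δ * s ^ 2 := by positivity
    nlinarith
  have h11 : 4 * (ε * (√2 + ε / 2)) * (1 + δ) * s ^ 2 ≤ 4 * η * (1 + δ) * s ^ 2 := by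
    have : 0 ≤ (1 + δ) * s ^ 2 := by positivity
    nlinarith
  linarith

theorem PairT_of_BL {S : Set ℝ} {η K : ℝ} {x : X} (hη : 0 ≤ η) (h : (K ^ 2 - 1) / (K ^ 2 + 1) ≤ η)
    (hbl : BL e F K x) : PairT e F S η x := by
  obtain ⟨U, hU, κ, hbl⟩ := hbl
  have hK : 0 < K ^ 2 + 1 := by positivity
  refine ⟨U, hU, 1, one_pos, 8, fun y hy s hsS hs hsr => ⟨2 * κ ^ 2 / (K ^ 2 + 1), by positivity, ?_, ?_⟩⟩
  · intro u hu a ha hue hae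
    have h1 := (hbl u hu a ha)
    have h2 : ‖e u - e a‖ ≤ 2 * s := by
      have : e u - e a = (e u - e y) - (e a - e y) := by abel
      rw [this]
      refine (norm_sub_le _ _).trans ?_
      linarith
    have h3 : (κ * ‖F u - F a‖) ^ 2 ≤ (K * ‖e u - e a‖) ^ 2 := by
      have h4 : 0 ≤ κ * ‖F u - F a‖ := (norm_nonneg _).trans h1.1
      exact pow_le_pow_left₀ h4 h1.2 2
    have h5 : ‖e u - e a‖ ^ 2 ≤ (2 * s) ^ 2 := pow_le_pow_left₀ (norm_nonneg _) h2 2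
    have e1 : 2 * κ ^ 2 / (K ^ 2 + 1) * ‖F u - F a‖ ^ 2 = 2 * (κ * ‖F u - F a‖) ^ 2 / (K ^ 2 + 1) := by ring
    rw [e1, div_le_iff₀ hK]
    have h6 : (K * ‖e u - e a‖) ^ 2 = K ^ 2 * ‖e u - e a‖ ^ 2 := by ring
    rw [h6] at h3
    nlinarith [sq_nonneg K, mul_le_mul_of_nonneg_left h5 (sq_nonneg K), sq_nonneg s]
  intro u hu a ha b hb hue hae hbe δ hδ hD
  have hsq : ∀ G D : ℝ, 0 ≤ D → D ≤ κ * G → κ * G ≤ K * D → |2 * κ ^ 2 / (K ^ 2 + 1) * G ^ 2 - D ^ 2| ≤ η * D ^ 2 := by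
    intro G D hD h1 h2
    have h3 : D ^ 2 ≤ (κ * G) ^ 2 := by nlinarith
    have h4 : (κ * G) ^ 2 ≤ (K * D) ^ 2 := by nlinarith
    have e1 : 2 * κ ^ 2 / (K ^ 2 + 1) * G ^ 2 = 2 * (κ * G) ^ 2 / (K ^ 2 + 1) := by ring
    have h5 : K ^ 2 - 1 ≤ η * (K ^ 2 + 1) := (div_le_iff₀ hK).1 h
    rw [e1, abs_le]
    constructor
    · rw [le_sub_iff_add_le, le_div_iff₀ hK]
      nlinarith [sq_nonneg D]
    · rw [sub_le_iff_le_add, div_le_iff₀ hK]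
      nlinarith [sq_nonneg D]
  have h1 := hbl u hu a ha
  have h2 := hbl u hu b hb
  have h3 := hsq _ _ (norm_nonneg _) h1.1 h1.2
  have h4 := hsq _ _ (norm_nonneg _) h2.1 h2.2
  nlinarith

variable [ChartedSpace (E n) X]

theorem TRecT_of_PairT (he : IsEmbedding e) (hI : ∀ x, Imm (n := n) e x) {S : Set ℝ} {η η' : ℝ} (hη : 0 < η)
    (hηη : η < η') {x : X} (hp : PairT e F S η x) : TRecT (n := n) e F S η' x := by
  intro B ζ hx hBi hBl v hv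
  subst hx
  obtain ⟨U, hU, r, hr, C, hrec⟩ := hp
  have hBc : Continuous B := continuous_iff_continuousAt.2 fun z => (hBl z).continuousAt
  have hq : ContDiff ℝ ∞ (fun z => e (B z)) := contDiff_iff_contDiffAt.2 fun z => (imm_smooth (hI _) (hBl z)).1
  have hqd : ∀ z, Injective (fderiv ℝ (fun z => e (B z)) z) := fun z => (imm_smooth (hI _) (hBl z)).2
  have hV0 : fderiv ℝ (fun z => e (B z)) ζ v ≠ 0 := fun h => hv (hqd ζ (by rw [h, map_zero]))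
  have hUev : ∀ᶠ y in 𝓝 ζ, B y ∈ U := hBc.continuousAt.eventually hU
  have hrev : ∀ᶠ s in 𝓝[>] (0 : ℝ), 0 < s ∧ s < r := Ioo_mem_nhdsGT hr
  have hfst : Tendsto (fun t : ℝ × E n × E n => (t.1, t.2.1)) (𝓝[>] 0 ×ˢ 𝓝 ζ ×ˢ 𝓝 v) (𝓝[>] 0 ×ˢ 𝓝 ζ) :=
    tendsto_fst.prodMk (tendsto_fst.comp tendsto_snd)
  obtain ⟨δ, hδ⟩ : ∃ δ, δ = (η' - η) / (η + η' + 1) := ⟨_, rfl⟩
  have hη' : 0 < η' := hη.trans hηη
  have hδp : 0 < δ := by rw [hδ]; exact div_pos (by linarith) (by linarith)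
  have hδ1 : δ < 1 := by rw [hδ, div_lt_one (by linarith)]; linarith
  have hδe : δ * (η + η' + 1) = η' - η := by rw [hδ]; field_simp
  have tV : Tendsto (fun t : ℝ × E n × E n => fderiv ℝ (fun z => e (B z)) t.2.1 t.2.2)
      (𝓝[>] 0 ×ˢ 𝓝 ζ ×ˢ 𝓝 v) (𝓝 (fderiv ℝ (fun z => e (B z)) ζ v)) := by
    have h1 : Continuous fun p : E n × E n => fderiv ℝ (fun z => e (B z)) p.1 p.2 :=
      ((hq.continuous_fderiv (by simp)).comp continuous_fst).clm_apply continuous_snd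
    have h2 := h1.tendsto (ζ, v)
    rw [nhds_prod_eq] at h2
    exact h2.comp tendsto_snd
  refine ⟨(‖fderiv ℝ (fun z => e (B z)) ζ v‖ + 1) * |C| / (2 * (1 - δ)), ?_⟩
  filter_upwards [hfst.eventually (emb_near he hBc.continuousAt hU),
    hfst.eventually (tendsto_snd.eventually hUev), hfst.eventually (tendsto_fst.eventually hrev),
    dir_approx hq hV0 hδp, tV.norm.eventually (gt_mem_nhds (show ‖fderiv ℝ (fun z => e (B z)) ζ v‖ <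
      ‖fderiv ℝ (fun z => e (B z)) ζ v‖ + 1 by linarith))] with t hnear htU hts hdir htV htS
  obtain ⟨V, hV⟩ : ∃ V, V = fderiv ℝ (fun z => e (B z)) t.2.1 t.2.2 := ⟨_, rfl⟩
  rw [← hV] at hdir htV ⊢
  obtain ⟨hVne, hdir⟩ := hdir
  have hVn : 0 < ‖V‖ := norm_pos_iff.2 hVne
  obtain ⟨V', hV'⟩ : ∃ V', V' = ‖V‖⁻¹ • V := ⟨_, rfl⟩
  have hV'n : ‖V'‖ = 1 := by rw [hV', norm_smul, norm_inv, norm_norm, inv_mul_cancel₀ hVn.ne']
  obtain ⟨s, hs⟩ : ∃ s, s = t.1 := ⟨_, rfl⟩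
  rw [← hs] at hnear hts htS hdir ⊢
  have hs0 := hts.1
  obtain ⟨σ, hσ⟩ : ∃ σ, σ = (1 - δ) * s := ⟨_, rfl⟩
  have hσp : 0 < σ := by rw [hσ]; exact mul_pos (by linarith) hs0
  have hσs : σ + δ * s = s := by rw [hσ]; ring
  have hσle : σ ≤ s := by
    have : 0 ≤ δ * s := by positivity
    linarith
  obtain ⟨y, hy⟩ : ∃ y, y = B t.2.1 := ⟨_, rfl⟩
  obtain ⟨a, ha⟩ : ∃ a, a = B (t.2.1 + (σ / ‖V‖) • t.2.2) := ⟨_, rfl⟩
  obtain ⟨b, hb⟩ : ∃ b, b = B (t.2.1 + (-σ / ‖V‖) • t.2.2) := ⟨_, rfl⟩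
  have hda := hdir σ (by rw [abs_of_pos hσp]; exact hσle)
  have hdb := hdir (-σ) (by rw [abs_neg, abs_of_pos hσp]; exact hσle)
  rw [← hy] at hnear htU ⊢
  rw [← ha, ← hy] at hda
  rw [← hb, ← hy] at hdb
  have ha1 : ‖(e a - e y) - σ • V'‖ ≤ δ * s := by
    have : σ • V' = (σ / ‖V‖) • V := by rw [hV', smul_smul]; rfl
    rw [this]; exact hda
  have hb1 : ‖(e b - e y) + σ • V'‖ ≤ δ * s := by
    have : e b - e y + σ • V' = e b - e y - (-σ / ‖V‖) • V := by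
      rw [hV', smul_smul, neg_div, neg_smul, sub_neg_eq_add]; rfl
    rw [this]; exact hdb
  obtain ⟨μ, hμ0, hμC, hμ⟩ := hrec y htU s htS hts.1 hts.2
  refine ⟨‖V‖ • ((μ / (2 * σ)) • innerSL ℝ (F a - F b)), ‖V‖ * ((μ * (‖F b‖ ^ 2 - ‖F a‖ ^ 2) + ‖e a - e y‖ ^ 2 -
    ‖e b - e y‖ ^ 2) / (4 * σ)), fun u hu => ?_⟩
  obtain ⟨p1, p2, p3⟩ := pair_sum hV'n hσp.le hs0.le hu ha1 hb1 hσs
  have e1 : e u - e y - (e a - e y) = e u - e a := by abel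
  have e2 : e u - e y - (e b - e y) = e u - e b := by abel
  rw [e1, e2] at p3
  have h3 := hμ u (hnear u hu) a (hnear a p1) b (hnear b p2) hu p1 p2 δ hδp.le p3
  rw [← e1, ← e2] at h3
  have h4 := polar_ineq (V := V') (δ := δ * s) hσp h3 ha1 hb1
  have hbound : ‖‖V‖ • ((μ / (2 * σ)) • innerSL ℝ (F a - F b))‖ * ‖F u - F y‖ ≤
      (‖fderiv ℝ (fun z => e (B z)) ζ v‖ + 1) * |C| / (2 * (1 - δ)) * s := by
    have g1 := hμC a (hnear a p1) b (hnear b p2) p1 p2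
    have g2 := hμC u (hnear u hu) y htU hu (by rw [sub_self, norm_zero]; exact hs0.le)
    have g3 : μ * (‖F a - F b‖ * ‖F u - F y‖) ≤ |C| * s ^ 2 := by
      have g4 : C * s ^ 2 ≤ |C| * s ^ 2 := mul_le_mul_of_nonneg_right (le_abs_self C) (sq_nonneg s)
      have g5 : ‖F a - F b‖ * ‖F u - F y‖ ≤ (‖F a - F b‖ ^ 2 + ‖F u - F y‖ ^ 2) / 2 := by
        nlinarith [sq_nonneg (‖F a - F b‖ - ‖F u - F y‖)]
      have g6 := mul_le_mul_of_nonneg_left g5 hμ0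
      linarith
    have g7 : ‖‖V‖ • ((μ / (2 * σ)) • innerSL ℝ (F a - F b))‖ = ‖V‖ * (μ / (2 * σ) * ‖F a - F b‖) := by
      rw [norm_smul, norm_smul, innerSL_apply_norm, norm_norm, Real.norm_eq_abs, abs_of_nonneg (by positivity)]
    rw [g7]
    have g8 : ‖V‖ * (μ / (2 * σ) * ‖F a - F b‖) * ‖F u - F y‖ = ‖V‖ / (2 * σ) * (μ * (‖F a - F b‖ * ‖F u - F y‖)) := by
      ring
    rw [g8]
    have g9 : ‖V‖ / (2 * σ) ≤ (‖fderiv ℝ (fun z => e (B z)) ζ v‖ + 1) / (2 * σ) :=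
      div_le_div_of_nonneg_right htV.le (by positivity)
    refine (mul_le_mul g9 g3 (by positivity) (by positivity)).trans (le_of_eq ?_)
    have g10 : (1 - δ) ≠ 0 := by linarith
    rw [hσ]
    field_simp
  refine ⟨?_, hbound⟩
  have e3 : (‖V‖ • ((μ / (2 * σ)) • innerSL ℝ (F a - F b))) (F u) + ‖V‖ * ((μ * (‖F b‖ ^ 2 - ‖F a‖ ^ 2) +
      ‖e a - e y‖ ^ 2 - ‖e b - e y‖ ^ 2) / (4 * σ)) - inner ℝ V (e u - e y) =
      ‖V‖ * ((μ / (2 * σ)) * inner ℝ (F a - F b) (F u) + (μ * (‖F b‖ ^ 2 - ‖F a‖ ^ 2) + ‖e a - e y‖ ^ 2 -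
        ‖e b - e y‖ ^ 2) / (4 * σ) - inner ℝ V' (e u - e y)) := by
    have e4 : inner ℝ V (e u - e y) = ‖V‖ * inner ℝ V' (e u - e y) := by
      rw [hV', inner_smul_left]
      simp only [map_inv₀, conj_trivial]
      field_simp
    rw [e4]
    have e5 : (‖V‖ • ((μ / (2 * σ)) • innerSL ℝ (F a - F b))) (F u) = ‖V‖ * ((μ / (2 * σ)) * inner ℝ (F a - F b) (F u)) :=
      rfl
    rw [e5]
    ring
  rw [e3, abs_mul, abs_of_pos hVn, mul_comm]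
  refine mul_le_mul_of_nonneg_right (h4.trans ?_) hVn.le
  have h5 : ‖e u - e y‖ * (δ * s) / σ ≤ s * (δ * s) / σ := by
    apply div_le_div_of_nonneg_right _ hσp.le
    exact mul_le_mul_of_nonneg_right hu (by positivity)
  have h6 : 4 * η * (1 + δ) * s ^ 2 / (4 * σ) + s * (δ * s) / σ ≤ η' * s := by
    have e6 : 4 * η * (1 + δ) * s ^ 2 / (4 * σ) + s * (δ * s) / σ = (η * (1 + δ) + δ) * s ^ 2 / σ := by
      field_simp
    rw [e6, div_le_iff₀ hσp, hσ]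
    have h7 : η * (1 + δ) + δ = η' * (1 - δ) := by linarith
    rw [h7]
    exact le_of_eq (by ring)
  linarith

/-- coarse coordinates, with a bound for the variation -/
def CCT {m k : ℕ} {X : Type} [TopologicalSpace X] (e : X → E m) (F : X → E k) (S : Set ℝ) (η : ℝ) (x : X) : Prop :=
  ∃ U ∈ 𝓝 x, ∃ r : ℝ, 0 < r ∧ ∃ C : ℝ, ∀ y ∈ U, ∀ s ∈ S, 0 < s → s < r → ∀ v : E m, ‖v‖ = 1 →
    ∃ (ℓ : E k →L[ℝ] ℝ) (c : ℝ), ∀ u ∈ U, ‖e u - e y‖ ≤ s →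
      |ℓ (F u) + c - inner ℝ v (e u - e y)| ≤ η * s ∧ ‖ℓ‖ * ‖F u - F y‖ ≤ C * s

theorem CCT.mono {m k : ℕ} {X : Type} [TopologicalSpace X] {e : X → E m} {F : X → E k} {S : Set ℝ} {η η' : ℝ} {x : X}
    (h : η ≤ η') (hw : CCT e F S η x) : CCT e F S η' x := by
  obtain ⟨U, hU, r, hr, C, h1⟩ := hw
  refine ⟨U, hU, r, hr, C, fun y hy s hs hs0 hsr v hv => ?_⟩
  obtain ⟨ℓ, c, h2⟩ := h1 y hy s hs hs0 hsr v hv
  exact ⟨ℓ, c, fun u hu hue => ⟨(h2 u hu hue).1.trans (mul_le_mul_of_nonneg_right h hs0.le), (h2 u hu hue).2⟩⟩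

theorem TRecT_of_CCT (he : IsEmbedding e) (hI : ∀ x, Imm (n := n) e x) {S : Set ℝ} {η : ℝ} {x : X}
    (h : CCT e F S η x) : TRecT (n := n) e F S η x := by
  intro B ζ hx hBi hBl v hv
  subst hx
  obtain ⟨U, hU, r, hr, C, hrec⟩ := h
  have hBc : Continuous B := continuous_iff_continuousAt.2 fun z => (hBl z).continuousAt
  have hq : ContDiff ℝ ∞ (fun z => e (B z)) := contDiff_iff_contDiffAt.2 fun z => (imm_smooth (hI _) (hBl z)).1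
  have hUev : ∀ᶠ y in 𝓝 ζ, B y ∈ U := hBc.continuousAt.eventually hU
  have hrev : ∀ᶠ s in 𝓝[>] (0 : ℝ), 0 < s ∧ s < r := Ioo_mem_nhdsGT hr
  have hfst : Tendsto (fun t : ℝ × E n × E n => (t.1, t.2.1)) (𝓝[>] 0 ×ˢ 𝓝 ζ ×ˢ 𝓝 v) (𝓝[>] 0 ×ˢ 𝓝 ζ) :=
    tendsto_fst.prodMk (tendsto_fst.comp tendsto_snd)
  have tV : Tendsto (fun t : ℝ × E n × E n => fderiv ℝ (fun z => e (B z)) t.2.1 t.2.2)
      (𝓝[>] 0 ×ˢ 𝓝 ζ ×ˢ 𝓝 v) (𝓝 (fderiv ℝ (fun z => e (B z)) ζ v)) := by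
    have h1 : Continuous fun p : E n × E n => fderiv ℝ (fun z => e (B z)) p.1 p.2 :=
      ((hq.continuous_fderiv (by simp)).comp continuous_fst).clm_apply continuous_snd
    have h2 := h1.tendsto (ζ, v)
    rw [nhds_prod_eq] at h2
    exact h2.comp tendsto_snd
  refine ⟨(‖fderiv ℝ (fun z => e (B z)) ζ v‖ + 1) * |C|, ?_⟩
  filter_upwards [hfst.eventually (emb_near he hBc.continuousAt hU),
    hfst.eventually (tendsto_snd.eventually hUev), hfst.eventually (tendsto_fst.eventually hrev),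
    tV.norm.eventually (gt_mem_nhds (show ‖fderiv ℝ (fun z => e (B z)) ζ v‖ <
      ‖fderiv ℝ (fun z => e (B z)) ζ v‖ + 1 by linarith))]
    with t hnear htU hts htV htS
  obtain ⟨V, hV⟩ : ∃ V, V = fderiv ℝ (fun z => e (B z)) t.2.1 t.2.2 := ⟨_, rfl⟩
  rw [← hV] at htV ⊢
  have hts1 := hts.1
  rcases eq_or_ne V 0 with hV0 | hV0
  · refine ⟨0, 0, fun u _ => ?_⟩
    rw [hV0]
    constructor
    · simp
    · rw [norm_zero, zero_mul]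
      positivity
  have hVn : 0 < ‖V‖ := norm_pos_iff.2 hV0
  obtain ⟨ℓ, c, hℓ⟩ := hrec (B t.2.1) htU t.1 htS hts.1 hts.2 (‖V‖⁻¹ • V)
    (by rw [norm_smul, norm_inv, norm_norm, inv_mul_cancel₀ hVn.ne'])
  refine ⟨‖V‖ • ℓ, ‖V‖ * c, fun u hu => ?_⟩
  obtain ⟨h4, h5⟩ := hℓ u (hnear _ hu) hu
  constructor
  · have e1 : (‖V‖ • ℓ) (F u) + ‖V‖ * c - inner ℝ V (e u - e (B t.2.1)) =
        ‖V‖ * (ℓ (F u) + c - inner ℝ (‖V‖⁻¹ • V) (e u - e (B t.2.1))) := by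
      rw [inner_smul_left]
      simp only [map_inv₀, conj_trivial]
      rw [show (‖V‖ • ℓ) (F u) = ‖V‖ * ℓ (F u) from rfl]
      field_simp
    rw [e1, abs_mul, abs_of_pos hVn]
    calc ‖V‖ * |ℓ (F u) + c - inner ℝ (‖V‖⁻¹ • V) (e u - e (B t.2.1))| ≤ ‖V‖ * (η * t.1) :=
          mul_le_mul_of_nonneg_left h4 hVn.le
      _ = η * t.1 * ‖V‖ := by ring
  · rw [norm_smul, norm_norm, mul_assoc, mul_assoc]
    refine mul_le_mul htV.le (h5.trans ?_) (by positivity) (by positivity)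
    exact mul_le_mul_of_nonneg_right (le_abs_self C) hts1.le

end Pool.Agent.H865_cl
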