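import Pool.Agent.H865_cl.Glob4
import Pool.Agent.H865_cl.Forms2
import Pool.Agent.H865_small.Final

/-!
# Coarse similarities between closed manifolds
-/

set_option autoImplicit false

open Set Filter Topology Metric Function MeasureTheory
open scoped Manifold ContDiff unitInterval

noncomputable section

namespace Pool.Agent.H865_cl

open Pool.Agent.Y522 (LD)
open Pool.Agent.H865_small (E Adm Imm CS BL vol vol_pos uniform_W adm_exists exists_diffeo)

/-- a local homeomorphism of a compact connected space with a right homotopy inverse is bijective -/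
theorem bij_of_homotopy {M N : Type} [TopologicalSpace M] [CompactSpace M] [T2Space M] [ConnectedSpace M]
    [TopologicalSpace N] [T2Space N] {G : M → N} (hG : IsLocalHomeomorph G) (r : C(N, M))
    (hr : ContinuousMap.Homotopic ((⟨G, hG.continuous⟩ : C(M, N)).comp r) (ContinuousMap.id N)) : Bijective G := by
  have cov : IsCoveringMap G := isLocalHomeomorph_iff_isCoveringMap.1 hG
  obtain ⟨H⟩ := hr
  have H0 : ∀ a, H.toContinuousMap (0, a) = G (r a) := fun a => H.apply_zero a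
  obtain ⟨τ, hτ⟩ : ∃ τ : N → M, τ = fun y => cov.liftHomotopy H.toContinuousMap r H0 (1, y) := ⟨_, rfl⟩
  have hτc : Continuous τ := by
    rw [hτ]
    exact (cov.liftHomotopy H.toContinuousMap r H0).continuous.comp (by fun_prop)
  have hGτ : ∀ y, G (τ y) = y := by
    intro y
    have h1 := congrFun (cov.liftHomotopy_lifts H.toContinuousMap r H0) (1, y)
    have h2 : H.toContinuousMap (1, y) = y := H.apply_one y
    rw [h2] at h1
    rw [hτ]
    exact h1
  obtain ⟨m0⟩ : Nonempty M := inferInstance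
  have h3 : (fun x => τ (G x)) = fun x => x := by
    refine cov.eq_of_comp_eq (hτc.comp cov.continuous) continuous_id ?_ (τ (G m0)) ?_
    · funext x
      exact hGτ (G x)
    · show τ (G (τ (G m0))) = τ (G m0)
      rw [hGτ]
  refine ⟨fun a b hab => ?_, fun p => ⟨τ p, hGτ p⟩⟩
  have h4 := congrFun h3 a
  have h5 := congrFun h3 b
  rw [← h4, ← h5, hab]

/-- the three conditions -/
def W2 {m k : ℕ} {X : Type} [TopologicalSpace X] (e : X → E m) (F : X → E k) (S : Set ℝ) (η : ℝ) (x : X) : Prop :=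
  CCT e F S η x ∨ (∃ ε : ℝ, 0 ≤ ε ∧ ε * (√2 + ε / 2) ≤ η ∧ CS e F S ε x) ∨ ∃ K : ℝ, (K ^ 2 - 1) / (K ^ 2 + 1) ≤ η ∧ BL e F K x

theorem W2.mono {m k : ℕ} {X : Type} [TopologicalSpace X] {e : X → E m} {F : X → E k} {S : Set ℝ} {η η' : ℝ} {x : X}
    (h : η ≤ η') (hw : W2 e F S η x) : W2 e F S η' x := by
  rcases hw with h1 | ⟨ε, hε, h1, h2⟩ | ⟨K, h1, h2⟩
  · exact Or.inl (h1.mono h)
  · exact Or.inr (Or.inl ⟨ε, hε, h1.trans h, h2⟩)
  · exact Or.inr (Or.inr ⟨K, h1.trans h, h2⟩)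

theorem W2.eventually {m k : ℕ} {X : Type} [TopologicalSpace X] {e : X → E m} {F : X → E k} {S : Set ℝ} {η : ℝ} {x : X}
    (hw : W2 e F S η x) : ∀ᶠ y in 𝓝 x, W2 e F S η y := by
  rcases hw with ⟨U, hU, r, hr, C, h1⟩ | ⟨ε, hε, h1, U, hU, r, hr, h2⟩ | ⟨K, h1, U, hU, κ, h2⟩
  · filter_upwards [eventually_mem_nhds_iff.2 hU] with y hy
    exact Or.inl ⟨U, hy, r, hr, C, h1⟩
  · filter_upwards [eventually_mem_nhds_iff.2 hU] with y hy
    exact Or.inr (Or.inl ⟨ε, hε, h1, U, hy, r, hr, h2⟩)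
  · filter_upwards [eventually_mem_nhds_iff.2 hU] with y hy
    exact Or.inr (Or.inr ⟨K, h1, U, hy, κ, h2⟩)

/-- **Coarse similarities between closed manifolds are limits of diffeomorphisms.** -/
theorem closed_main (d m k : ℕ) (M N : Type) [TopologicalSpace M] [TopologicalSpace N]
    [CompactSpace M] [T2Space M] [ConnectedSpace M] [CompactSpace N] [T2Space N]
    [ChartedSpace (E (d + 1)) M] [ChartedSpace (E (d + 1)) N]
    [IsManifold (𝓡 (d + 1)) ∞ M] [IsManifold (𝓡 (d + 1)) ∞ N]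
    (e : M → E m) (he : Continuous e) (hei : Injective e) (heI : ∀ x, Imm (n := d + 1) e x)
    (j : N → E k) (hj : Continuous j) (hji : Injective j) (hjI : ∀ y, Imm (n := d + 1) j y)
    (g : C(M, N)) (r : C(N, M)) (hr : ContinuousMap.Homotopic (g.comp r) (ContinuousMap.id N))
    (S : Set ℝ) (hS : ∀ δ : ℝ, 0 < δ → ∃ s ∈ S, 0 < s ∧ s < δ)
    (hc : ∀ x, ¬ LD (d + 1) g x → ∃ η : ℝ, η < vol (d + 1) / (2 * vol d) ∧ W2 e (fun x => j (g x)) S η x)
    (O : Set M) (hO : IsOpen O) (hbad : ∀ x, ¬ LD (d + 1) g x → x ∈ O) (ε : ℝ) (hε : 0 < ε) :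
    ∃ Φ : Diffeomorph (𝓡 (d + 1)) (𝓡 (d + 1)) M N ∞,
      (∀ x, ‖j (Φ x) - j (g x)‖ < ε) ∧ ∀ x, x ∉ O → Φ x = g x := by
  classical
  obtain ⟨m0⟩ : Nonempty M := inferInstance
  have : Nonempty N := ⟨g m0⟩
  obtain ⟨π, Ω, hΩ, hjΩ, hπj, hπc, hπs, hπ2⟩ := exists_retr (n := d + 1) hj hji hjI
  have hK : IsCompact {x | ¬ LD (d + 1) g x} := by
    refine IsClosed.isCompact ?_
    rw [← isOpen_compl_iff, isOpen_iff_mem_nhds]
    intro x hx
    have hx' : LD (d + 1) g x := by
      by_contra hcon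
      exact hx hcon
    filter_upwards [hx'.eventually] with y hy
    intro hy'
    exact hy' hy
  have hκ : 0 < vol (d + 1) / (2 * vol d) := by
    have := vol_pos d
    have := vol_pos (d + 1)
    positivity
  obtain ⟨η, hη0, hη1, hη2⟩ := uniform_W (W := fun η x => W2 e (fun x => j (g x)) S η x)
    (fun η η' x h1 h2 => W2.mono h1 h2) (fun η x h1 => W2.eventually h1) hκ hK hc
  obtain ⟨η', hη', hη'1⟩ := exists_between hη1
  obtain ⟨η'', hη'', hη''1⟩ := exists_between hη'1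
  obtain ⟨ρ, hρ, hA⟩ := adm_exists ((hη0.trans hη').trans hη'').le hη''1
  have hS' : ∃ᶠ s in 𝓝[>] (0 : ℝ), s ∈ S := by
    rw [Filter.frequently_iff]
    intro U hU
    obtain ⟨δ, hδ, hδU⟩ := mem_nhdsGT_iff_exists_Ioo_subset.1 hU
    obtain ⟨s, hs, hs0, hsδ⟩ := hS δ hδ
    exact ⟨s, hδU ⟨hs0, hsδ⟩, hs⟩
  have hee : IsEmbedding e := (he.isClosedEmbedding hei).isEmbedding
  obtain ⟨δ0, hδ0, hδ02⟩ := (isCompact_range hj).exists_thickening_subset_open hΩ hjΩ
  have hrec : ∀ x, ¬ LD (d + 1) g x → TRecT (n := d + 1) e (fun x => j (g x)) S η' x := by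
    intro x hx
    rcases hη2 x hx with h | ⟨ε1, hε1, h1, h2⟩ | ⟨K, h1, h2⟩
    · exact TRecT_of_CCT hee heI (h.mono hη'.le)
    · exact TRecT_of_PairT hee heI hη0 hη' (PairT_of_CS hε1 h1 h2)
    · exact TRecT_of_PairT hee heI hη0 hη' (PairT_of_BL hη0.le h1 h2)
  obtain ⟨G, C, hC, hCO, hGC, hGd, hGε⟩ := sglob4 (ρ := ρ) hρ ((hη0.trans hη').trans hη'') hη'' hA g.continuous hj hjI
    hee heI hΩ hjΩ hπj hπc hπs hπ2 hK hS' hrec hO hbad (lt_min hε hδ0)
  have hloc : IsLocalDiffeomorph (𝓡 (d + 1)) (𝓡 (d + 1)) ∞ G := fun x => hGd x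
  have hlh : IsLocalHomeomorph G := IsLocalDiffeomorph.isLocalHomeomorph hloc
  have hbij : Bijective G := by
    refine bij_of_homotopy hlh r (ContinuousMap.Homotopic.trans ?_ hr)
    have hin : ∀ p : I × N, (1 - (p.1 : ℝ)) • j (G (r p.2)) + (p.1 : ℝ) • j (g (r p.2)) ∈ Ω := by
      intro p
      apply hδ02
      rw [Metric.mem_thickening_iff]
      refine ⟨j (g (r p.2)), mem_range_self _, ?_⟩
      rw [dist_eq_norm]
      have h1 : (1 - (p.1 : ℝ)) • j (G (r p.2)) + (p.1 : ℝ) • j (g (r p.2)) - j (g (r p.2)) =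
          (1 - (p.1 : ℝ)) • (j (G (r p.2)) - j (g (r p.2))) := by
        rw [smul_sub, sub_smul, sub_smul, one_smul, one_smul]
        abel
      rw [h1, norm_smul, Real.norm_eq_abs, abs_of_nonneg (by have := p.1.2.2; linarith)]
      have h2 := (hGε (r p.2)).trans_le (min_le_right _ _)
      have h3 : (1 - (p.1 : ℝ)) ≤ 1 := by have := p.1.2.1; linarith
      have h4 : (1 - (p.1 : ℝ)) * ‖j (G (r p.2)) - j (g (r p.2))‖ ≤ 1 * ‖j (G (r p.2)) - j (g (r p.2))‖ :=
        mul_le_mul_of_nonneg_right h3 (norm_nonneg _)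
      linarith
    have hcont : Continuous fun p : I × N => (1 - (p.1 : ℝ)) • j (G (r p.2)) + (p.1 : ℝ) • j (g (r p.2)) := by
      have h1 : Continuous G := hlh.continuous
      have h2 : Continuous fun p : I × N => j (G (r p.2)) :=
        hj.comp (h1.comp (r.continuous.comp continuous_snd))
      have h3 : Continuous fun p : I × N => j (g (r p.2)) :=
        hj.comp (g.continuous.comp (r.continuous.comp continuous_snd))
      have h4 : Continuous fun p : I × N => (p.1 : ℝ) := continuous_subtype_val.comp continuous_fst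
      exact ((continuous_const.sub h4).smul h2).add (h4.smul h3)
    refine ⟨{ toFun := fun p => π ((1 - (p.1 : ℝ)) • j (G (r p.2)) + (p.1 : ℝ) • j (g (r p.2))),
              continuous_toFun := ?_, map_zero_left := ?_, map_one_left := ?_ }⟩
    · rw [continuous_iff_continuousAt]
      intro p
      exact ContinuousAt.comp (g := π) (hπc _ (hin p)) hcont.continuousAt
    · intro y
      simp [hπj]
    · intro y
      simp [hπj]
  obtain ⟨Φ, hΦ⟩ := exists_diffeo _ _ hloc hbij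
  refine ⟨Φ, fun x => ?_, fun x hx => ?_⟩
  · rw [hΦ]
    exact (hGε x).trans_le (min_le_left _ _)
  · rw [hΦ]
    exact hGC x fun h => hx (hCO h)

end Pool.Agent.H865_cl
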