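import Mathlib

/-!
# `S¹ × S³` and the twisted product are compact and connected
-/

set_option autoImplicit false

open Set Filter Topology Metric Function

noncomputable section

namespace Pool.Agent.H865_cl

/-- the product `S¹ × S³` -/
abbrev P13 : Type := Circle × Metric.sphere (0 : EuclideanSpace ℝ (Fin 4)) 1

/-- the twisted product -/
abbrev T13 : Type := {p : ℂ × ℂ × EuclideanSpace ℝ (Fin 3) //
  ‖p.1‖ = 1 ∧ p.2.1 ^ 2 = ((‖p.2.1‖ ^ 2 : ℝ) : ℂ) * p.1 ∧ ‖p.2.1‖ ^ 2 + ‖p.2.2‖ ^ 2 = 1}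

theorem sphere_conn : ConnectedSpace (Metric.sphere (0 : EuclideanSpace ℝ (Fin 4)) 1) := by
  have hrank : 1 < Module.rank ℝ (EuclideanSpace ℝ (Fin 4)) := by
    rw [rank_eq_card_basis (EuclideanSpace.basisFun (Fin 4) ℝ).toBasis, Fintype.card_fin]
    norm_num
  exact isConnected_iff_connectedSpace.1 (isConnected_sphere hrank 0 zero_le_one)

theorem circle_conn : ConnectedSpace Circle := by
  have h1 : Surjective (fun t : ℝ => Circle.exp t) := fun z => ⟨Complex.arg z, Circle.exp_arg z⟩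
  exact h1.connectedSpace Circle.exp.continuous

theorem p13_conn : ConnectedSpace P13 := by
  have := sphere_conn
  have := circle_conn
  infer_instance

theorem t13_compact : CompactSpace T13 := by
  refine isCompact_iff_compactSpace.1 ?_
  have hcl : IsClosed {p : ℂ × ℂ × EuclideanSpace ℝ (Fin 3) |
      ‖p.1‖ = 1 ∧ p.2.1 ^ 2 = ((‖p.2.1‖ ^ 2 : ℝ) : ℂ) * p.1 ∧ ‖p.2.1‖ ^ 2 + ‖p.2.2‖ ^ 2 = 1} := by
    refine IsClosed.inter ?_ (IsClosed.inter ?_ ?_)
    · exact isClosed_eq (by fun_prop) (by fun_prop)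
    · exact isClosed_eq (by fun_prop) (by fun_prop)
    · exact isClosed_eq (by fun_prop) (by fun_prop)
  refine (((isCompact_closedBall (0 : ℂ) 1).prod ((isCompact_closedBall (0 : ℂ) 1).prod
    (isCompact_closedBall (0 : EuclideanSpace ℝ (Fin 3)) 1)))).of_isClosed_subset hcl ?_
  rintro ⟨a, b, c⟩ ⟨h1, -, h3⟩
  simp only at h1 h3
  simp only [Set.mem_prod, mem_closedBall_zero_iff]
  refine ⟨h1.le, ?_, ?_⟩
  · nlinarith [norm_nonneg b, norm_nonneg c, sq_nonneg ‖c‖]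
  · nlinarith [norm_nonneg b, norm_nonneg c, sq_nonneg ‖b‖]

theorem t13_conn : ConnectedSpace T13 := by
  have := sphere_conn
  have hn : ∀ x : EuclideanSpace ℝ (Fin 4), ‖x‖ = 1 → x 0 ^ 2 + (x 1 ^ 2 + x 2 ^ 2 + x 3 ^ 2) = 1 := by
    intro x hx
    have h1 := EuclideanSpace.norm_sq_eq x
    rw [hx, Fin.sum_univ_four] at h1
    simp only [Real.norm_eq_abs, sq_abs] at h1
    linarith
  have hm : ∀ p : ℝ × Metric.sphere (0 : EuclideanSpace ℝ (Fin 4)) 1,
      ‖Complex.exp (p.1 * Complex.I)‖ = 1 ∧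
      ((p.2.1 0 : ℂ) * Complex.exp (p.1 / 2 * Complex.I)) ^ 2 =
        ((‖(p.2.1 0 : ℂ) * Complex.exp (p.1 / 2 * Complex.I)‖ ^ 2 : ℝ) : ℂ) * Complex.exp (p.1 * Complex.I) ∧
      ‖(p.2.1 0 : ℂ) * Complex.exp (p.1 / 2 * Complex.I)‖ ^ 2 +
        ‖(WithLp.toLp 2 ![p.2.1 1, p.2.1 2, p.2.1 3] : EuclideanSpace ℝ (Fin 3))‖ ^ 2 = 1 := by
    intro p
    have e1 : ‖Complex.exp (p.1 / 2 * Complex.I)‖ = 1 := by
      have := Complex.norm_exp_ofReal_mul_I (p.1 / 2)
      push_cast at this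
      exact this
    have e2 : ‖(p.2.1 0 : ℂ) * Complex.exp (p.1 / 2 * Complex.I)‖ ^ 2 = p.2.1 0 ^ 2 := by
      rw [norm_mul, e1, mul_one, Complex.norm_real, Real.norm_eq_abs, sq_abs]
    have e3 : Complex.exp (p.1 / 2 * Complex.I) ^ 2 = Complex.exp (p.1 * Complex.I) := by
      rw [← Complex.exp_nat_mul]
      congr 1
      push_cast
      ring
    refine ⟨Complex.norm_exp_ofReal_mul_I p.1, ?_, ?_⟩
    · rw [e2, mul_pow, e3]
      push_cast
      ring
    · rw [e2, EuclideanSpace.norm_sq_eq, Fin.sum_univ_three]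
      have h2 := hn p.2.1 (mem_sphere_zero_iff_norm.1 p.2.2)
      simp only [Real.norm_eq_abs, sq_abs]
      simpa using h2
  obtain ⟨f, hf⟩ : ∃ f : ℝ × Metric.sphere (0 : EuclideanSpace ℝ (Fin 4)) 1 → T13, f = fun p =>
      ⟨(Complex.exp (p.1 * Complex.I), (p.2.1 0 : ℂ) * Complex.exp (p.1 / 2 * Complex.I),
        WithLp.toLp 2 ![p.2.1 1, p.2.1 2, p.2.1 3]), hm p⟩ := ⟨_, rfl⟩
  have hfc : Continuous f := by
    rw [hf]
    refine Continuous.subtype_mk ?_ _
    have h0 : ∀ i : Fin 4, Continuous fun p : ℝ × Metric.sphere (0 : EuclideanSpace ℝ (Fin 4)) 1 => p.2.1 i := by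
      intro i
      fun_prop
    refine Continuous.prodMk (by fun_prop) (Continuous.prodMk ?_ ?_)
    · have := h0 0
      fun_prop
    · refine (PiLp.continuous_toLp 2 _).comp (continuous_pi fun i => ?_)
      fin_cases i
      · exact h0 1
      · exact h0 2
      · exact h0 3
  have hfs : Surjective f := by
    rintro ⟨⟨z, w, y⟩, h1, h2, h3⟩
    simp only at h1 h2 h3
    obtain ⟨c, hc⟩ : ∃ c, c = Complex.exp (Complex.arg z / 2 * Complex.I) := ⟨_, rfl⟩
    have hz : Complex.exp (Complex.arg z * Complex.I) = z := by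
      have := Complex.norm_mul_exp_arg_mul_I z
      rw [h1] at this
      simpa using this
    have hc2 : c ^ 2 = z := by
      rw [hc, ← Complex.exp_nat_mul]
      conv_rhs => rw [← hz]
      congr 1
      push_cast
      ring
    have hw : w = (‖w‖ : ℂ) * c ∨ w = ((-‖w‖ : ℝ) : ℂ) * c := by
      have h4 : (w - (‖w‖ : ℂ) * c) * (w + (‖w‖ : ℂ) * c) = 0 := by
        have : (w - (‖w‖ : ℂ) * c) * (w + (‖w‖ : ℂ) * c) = w ^ 2 - (‖w‖ : ℂ) ^ 2 * c ^ 2 := by ring
        rw [this, h2, hc2]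
        push_cast
        ring
      rcases mul_eq_zero.1 h4 with h5 | h5
      · left
        exact sub_eq_zero.1 h5
      · right
        push_cast
        rw [neg_mul]
        exact eq_neg_of_add_eq_zero_left h5
    obtain ⟨a, ha, haw⟩ : ∃ a : ℝ, a ^ 2 = ‖w‖ ^ 2 ∧ w = (a : ℂ) * c := by
      rcases hw with h | h
      · exact ⟨‖w‖, rfl, h⟩
      · exact ⟨-‖w‖, by ring, h⟩
    have hy : ‖y‖ ^ 2 = y 0 ^ 2 + y 1 ^ 2 + y 2 ^ 2 := by
      rw [EuclideanSpace.norm_sq_eq, Fin.sum_univ_three]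
      simp only [Real.norm_eq_abs, sq_abs]
    have hx : ‖(WithLp.toLp 2 ![a, y 0, y 1, y 2] : EuclideanSpace ℝ (Fin 4))‖ = 1 := by
      have h5 : ‖(WithLp.toLp 2 ![a, y 0, y 1, y 2] : EuclideanSpace ℝ (Fin 4))‖ ^ 2 = 1 := by
        rw [EuclideanSpace.norm_sq_eq, Fin.sum_univ_four]
        simp only [Real.norm_eq_abs, sq_abs]
        have : a ^ 2 + y 0 ^ 2 + y 1 ^ 2 + y 2 ^ 2 = 1 := by rw [ha]; linarith
        simpa using this
      exact (pow_eq_one_iff_of_nonneg (norm_nonneg _) two_ne_zero).1 h5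
    refine ⟨(Complex.arg z, ⟨WithLp.toLp 2 ![a, y 0, y 1, y 2], mem_sphere_zero_iff_norm.2 hx⟩), ?_⟩
    rw [hf]
    refine Subtype.ext (Prod.ext hz (Prod.ext ?_ ?_))
    · show (a : ℂ) * Complex.exp (Complex.arg z / 2 * Complex.I) = w
      rw [← hc, haw]
    · ext i
      fin_cases i <;> rfl
  exact hfs.connectedSpace hfc

end Pool.Agent.H865_cl
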