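import Pool.Agent.H865_small.Chart

/-!
# The nearest point retraction onto a closed submanifold of a Euclidean space
-/

set_option autoImplicit false

open Set Filter Topology Metric Function
open scoped Manifold ContDiff

noncomputable section

namespace Pool.Agent.H865_cl

open Pool.Agent.Y522 (LD)
open Pool.Agent.H865_small (E Imm exists_chartB imm_smooth)

/-- the nearest point problem, locally -/
theorem nearest_smooth {n k : ℕ} {q : E n → E k} (hq : ContDiff ℝ ∞ q) (hd : Injective (fderiv ℝ q 0)) :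
    ∃ h : E k → E n, (∀ᶠ z in 𝓝 (q 0), ContDiffAt ℝ ∞ h z) ∧
      ∀ᶠ p : E k × E n in 𝓝 (q 0, 0), (∀ w, inner ℝ (p.1 - q p.2) (fderiv ℝ q p.2 w) = 0) → p.2 = h p.1 := by
  classical
  obtain ⟨D, hD⟩ : ∃ D, D = fderiv ℝ q 0 := ⟨_, rfl⟩
  obtain ⟨b, hb⟩ : ∃ b : Fin n → E n, b = fun i => EuclideanSpace.single i (1 : ℝ) := ⟨_, rfl⟩
  have hbc : ∀ (c : Fin n → ℝ) (i : Fin n), (∑ i, c i • b i) i = c i := by
    intro c i
    rw [hb]
    simp [Finset.sum_apply, Pi.single_apply]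
  have hexp : ∀ w : E n, w = ∑ i, w i • b i := by
    intro w
    ext i
    rw [hbc]
  obtain ⟨Ψ, hΨ⟩ : ∃ Ψ : E k × E n → E n, Ψ = fun p => ∑ i, (inner ℝ (p.1 - q p.2) (fderiv ℝ q p.2 (b i)) : ℝ) • b i :=
    ⟨_, rfl⟩
  have hqd : ContDiff ℝ ∞ (fderiv ℝ q) := hq.fderiv_right (by simp)
  have hΨs : ContDiff ℝ ∞ Ψ := by
    rw [hΨ]
    apply ContDiff.sum
    intro i _
    exact ((contDiff_fst.sub (hq.comp contDiff_snd)).inner ℝ ((hqd.comp contDiff_snd).clm_apply contDiff_const)).smul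
      contDiff_const
  -- the derivative of `Ψ`
  obtain ⟨T, hT⟩ : ∃ T : Fin n → (E k × E n →L[ℝ] ℝ), ∀ i, HasFDerivAt
      (fun p : E k × E n => (inner ℝ (p.1 - q p.2) (fderiv ℝ q p.2 (b i)) : ℝ)) (T i) (q 0, 0) ∧
      ∀ a w, T i (a, w) = inner ℝ (a - D w) (D (b i)) := by
    have hex : ∀ i, ∃ T : E k × E n →L[ℝ] ℝ, HasFDerivAt
      (fun p : E k × E n => (inner ℝ (p.1 - q p.2) (fderiv ℝ q p.2 (b i)) : ℝ)) T (q 0, 0) ∧
      ∀ a w, T (a, w) = inner ℝ (a - D w) (D (b i)) := by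
      intro i
      have h1 : HasFDerivAt (fun p : E k × E n => p.1 - q p.2)
          (ContinuousLinearMap.fst ℝ (E k) (E n) - D.comp (ContinuousLinearMap.snd ℝ (E k) (E n))) (q 0, 0) := by
        refine HasFDerivAt.sub hasFDerivAt_fst ?_
        have h2 : HasFDerivAt q D ((q 0, (0 : E n)).2) := by
          rw [hD]
          exact (hq.differentiable (by simp) _).hasFDerivAt
        exact h2.comp (q 0, (0 : E n)) hasFDerivAt_snd
      have h3 : DifferentiableAt ℝ (fun p : E k × E n => fderiv ℝ q p.2 (b i)) (q 0, 0) :=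
        (((hqd.comp contDiff_snd).clm_apply contDiff_const).differentiable (by simp)) _
      refine ⟨_, h1.inner ℝ h3.hasFDerivAt, fun a w => ?_⟩
      simp [fderivInnerCLM_apply, ← hD]
    choose T hT using hex
    exact ⟨T, hT⟩
  have hΨd : HasFDerivAt Ψ (∑ i, (T i).smulRight (b i)) (q 0, 0) := by
    rw [hΨ]
    apply HasFDerivAt.fun_sum
    intro i _
    exact (hT i).1.smul_const (b i)
  obtain ⟨Θ, hΘ⟩ : ∃ Θ : E k × E n → E k × E n, Θ = fun p => (p.1, Ψ p) := ⟨_, rfl⟩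
  have hΘs : ContDiff ℝ ∞ Θ := by rw [hΘ]; exact contDiff_fst.prodMk hΨs
  have hΘd : HasFDerivAt Θ ((ContinuousLinearMap.fst ℝ (E k) (E n)).prod (∑ i, (T i).smulRight (b i))) (q 0, 0) := by
    rw [hΘ]
    exact hasFDerivAt_fst.prodMk hΨd
  have hinj : Injective ((ContinuousLinearMap.fst ℝ (E k) (E n)).prod (∑ i, (T i).smulRight (b i))) := by
    rw [injective_iff_map_eq_zero]
    rintro ⟨a, w⟩ haw
    have h1 : a = 0 := congrArg Prod.fst haw
    have h2 : (∑ i, (T i).smulRight (b i)) (a, w) = 0 := congrArg Prod.snd haw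
    have h3 : ∑ i, (T i (a, w)) • b i = 0 := by
      rw [← h2]
      simp [_root_.sum_apply]
    have h4 : ∀ i, inner ℝ (D w) (D (b i)) = (0 : ℝ) := by
      intro i
      have h5 := hbc (fun i => T i (a, w)) i
      rw [h3] at h5
      rw [(hT i).2, h1, zero_sub, inner_neg_left] at h5
      have h6 : (0 : E n) i = 0 := rfl
      rw [h6] at h5
      linarith
    have h7 : inner ℝ (D w) (D w) = (0 : ℝ) := by
      have h8 : D w = ∑ i, w i • D (b i) := by
        conv_lhs => rw [hexp w]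
        rw [map_sum]
        exact Finset.sum_congr rfl fun i _ => map_smul D _ _
      have h9 : inner ℝ (D w) (∑ i, w i • D (b i)) = (0 : ℝ) := by
        rw [inner_sum]
        refine Finset.sum_eq_zero fun i _ => ?_
        rw [inner_smul_right, h4, mul_zero]
      rwa [← h8] at h9
    have h10 : D w = 0 := inner_self_eq_zero.1 h7
    have h11 : w = 0 := by
      apply hd
      rw [← hD, h10, map_zero]
    rw [h1, h11]
    rfl
  have hsurj : Surjective ((ContinuousLinearMap.fst ℝ (E k) (E n)).prod (∑ i, (T i).smulRight (b i))) :=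
    (LinearMap.injective_iff_surjective (f := ((ContinuousLinearMap.fst ℝ (E k) (E n)).prod
      (∑ i, (T i).smulRight (b i))).toLinearMap)).1 hinj
  obtain ⟨L, hL⟩ : ∃ L : (E k × E n) ≃L[ℝ] (E k × E n), (L : E k × E n →L[ℝ] E k × E n) =
      (ContinuousLinearMap.fst ℝ (E k) (E n)).prod (∑ i, (T i).smulRight (b i)) :=
    ⟨ContinuousLinearEquiv.ofBijective _ (LinearMap.ker_eq_bot.2 hinj) (LinearMap.range_eq_top.2 hsurj),
      ContinuousLinearMap.ext fun x => rfl⟩
  rw [← hL] at hΘd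
  have hΘsa : ContDiffAt ℝ ∞ Θ (q 0, 0) := hΘs.contDiffAt
  obtain ⟨f, hf, hf1, hf2⟩ : ∃ f : OpenPartialHomeomorph (E k × E n) (E k × E n), (f : E k × E n → E k × E n) = Θ ∧
      (q 0, 0) ∈ f.source ∧ Θ (q 0, 0) ∈ f.target :=
    ⟨hΘsa.toOpenPartialHomeomorph Θ hΘd (by simp), rfl, hΘsa.mem_toOpenPartialHomeomorph_source hΘd (by simp),
      hΘsa.image_mem_toOpenPartialHomeomorph_target hΘd (by simp)⟩
  have hΘ0 : Θ (q 0, 0) = (q 0, 0) := by
    rw [hΘ, hΨ]
    simp
  have hev : ∀ᶠ p in 𝓝 (q 0, (0 : E n)), ∃ L' : (E k × E n) ≃L[ℝ] (E k × E n), HasFDerivAt Θ (L' : _ →L[ℝ] _) p := by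
    have h1 : ContinuousAt (fderiv ℝ Θ) (q 0, 0) := (hΘs.continuous_fderiv (by simp)).continuousAt
    have h2 := ContinuousLinearEquiv.nhds L
    rw [← hΘd.fderiv] at h2
    filter_upwards [h1 h2] with p hp
    obtain ⟨L', hL'⟩ := hp
    refine ⟨L', ?_⟩
    rw [hL']
    exact (hΘs.differentiable (by simp) p).hasFDerivAt
  have hc : ContinuousAt f.symm (q 0, 0) := by
    rw [← hΘ0]
    exact f.continuousAt_symm hf2
  have hs0 : f.symm (q 0, 0) = (q 0, 0) := by
    have := f.left_inv hf1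
    rw [hf, hΘ0] at this
    exact this
  have hin : ContinuousAt (fun z : E k => (z, (0 : E n))) (q 0) := by fun_prop
  refine ⟨fun z => (f.symm (z, 0)).2, ?_, ?_⟩
  · have h1 : ∀ᶠ p in 𝓝 (q 0, (0 : E n)), p ∈ f.target := by
      rw [hΘ0] at hf2
      exact f.open_target.mem_nhds hf2
    have h2 : ∀ᶠ p in 𝓝 (q 0, (0 : E n)), ∃ L' : (E k × E n) ≃L[ℝ] (E k × E n),
        HasFDerivAt Θ (L' : _ →L[ℝ] _) (f.symm p) := by
      rw [← hs0] at hev
      exact hc.eventually hev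
    filter_upwards [hin (h1.and h2)] with z hz
    obtain ⟨hz1, L', hz2⟩ := hz
    have h3 : ContDiffAt ℝ ∞ f.symm (z, 0) := by
      refine f.contDiffAt_symm hz1 (f₀' := L') ?_ ?_
      · rw [hf]; exact hz2
      · rw [hf]; exact hΘs.contDiffAt
    have h4 : ContDiffAt ℝ ∞ (fun z : E k => (z, (0 : E n))) z := by fun_prop
    exact contDiffAt_snd.comp z (ContDiffAt.comp (g := f.symm) z h3 h4)
  · filter_upwards [f.open_source.mem_nhds hf1] with p hp hcond
    have h1 : Θ p = (p.1, 0) := by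
      rw [hΘ, hΨ]
      simp only [hcond, zero_smul, Finset.sum_const_zero]
    have h2 := f.left_inv hp
    rw [hf, h1] at h2
    simp only [h2]

theorem exists_retr {n k : ℕ} {N : Type} [TopologicalSpace N] [ChartedSpace (E n) N] [IsManifold (𝓡 n) ∞ N]
    [CompactSpace N] [T2Space N] [Nonempty N] {j : N → E k} (hj : Continuous j) (hji : Injective j)
    (hI : ∀ y, Imm (n := n) j y) :
    ∃ (π : E k → N) (Ω : Set (E k)), IsOpen Ω ∧ range j ⊆ Ω ∧ (∀ y, π (j y) = y) ∧ (∀ z ∈ Ω, ContinuousAt π z) ∧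
      (∀ z ∈ Ω, ContDiffAt ℝ ∞ (fun z => j (π z)) z) ∧ ∀ z y, ‖j (π z) - j y‖ ≤ 2 * ‖z - j y‖ := by
  classical
  have hex : ∀ z : E k, ∃ y : N, ∀ y' : N, ‖z - j y‖ ≤ ‖z - j y'‖ := by
    intro z
    obtain ⟨y, -, hy⟩ := isCompact_univ.exists_isMinOn (univ_nonempty (α := N))
      (f := fun y => ‖z - j y‖) (by fun_prop)
    exact ⟨y, fun y' => hy (mem_univ y')⟩
  choose π hπ using hex
  have hπj : ∀ y, π (j y) = y := by
    intro y
    have h1 := hπ (j y) y
    rw [sub_self, norm_zero] at h1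
    have h2 := norm_le_zero_iff.1 h1
    exact (hji (sub_eq_zero.1 h2)).symm
  have hπ2 : ∀ z y, ‖j (π z) - j y‖ ≤ 2 * ‖z - j y‖ := by
    intro z y
    have h2 : j (π z) - j y = (z - j y) - (z - j (π z)) := by abel
    rw [h2]
    refine (norm_sub_le _ _).trans ?_
    have := hπ z y
    linarith
  have hπt : ∀ y, Tendsto π (𝓝 (j y)) (𝓝 y) := by
    intro y
    rw [(hj.isClosedEmbedding hji).isInducing.nhds_eq_comap, tendsto_comap_iff]
    rw [tendsto_iff_norm_sub_tendsto_zero]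
    have h1 : Tendsto (fun z => 2 * ‖z - j y‖) (𝓝 (j y)) (𝓝 0) := by
      have h2 : Continuous fun z => 2 * ‖z - j y‖ := by fun_prop
      have h3 := h2.tendsto (j y)
      rwa [sub_self, norm_zero, mul_zero] at h3
    exact squeeze_zero (fun z => norm_nonneg _) (fun z => hπ2 z y) h1
  have hloc : ∀ y0, ∀ᶠ z in 𝓝 (j y0), ContinuousAt π z ∧ ContDiffAt ℝ ∞ (fun z => j (π z)) z := by
    intro y0
    obtain ⟨B, hB0, hBi, hBl⟩ := exists_chartB (n := n) y0
    have hq : ContDiff ℝ ∞ (fun z => j (B z)) := contDiff_iff_contDiffAt.2 fun z => (imm_smooth (hI _) (hBl z)).1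
    have hqd : Injective (fderiv ℝ (fun z => j (B z)) 0) := (imm_smooth (hI _) (hBl 0)).2
    obtain ⟨h, hh1, hh2⟩ := nearest_smooth hq hqd
    obtain ⟨p, hp, hp0, -, hp2⟩ := (hBl 0).exists_inverse
    rw [hB0] at hp hp0 hp2 hh1 hh2
    have hpt : Tendsto (fun z => p (π z)) (𝓝 (j y0)) (𝓝 0) := by
      have h1 : Tendsto p (𝓝 y0) (𝓝 0) := by
        have := hp.continuousAt.tendsto
        rwa [hp0] at this
      exact h1.comp (hπt y0)
    have hpair : Tendsto (fun z => (z, p (π z))) (𝓝 (j y0)) (𝓝 (j y0, 0)) := by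
      rw [nhds_prod_eq]
      exact tendsto_id.prodMk hpt
    have hkey : ∀ᶠ z in 𝓝 (j y0), π z = B (h z) := by
      filter_upwards [hpair.eventually hh2, (hπt y0).eventually hp2] with z hz1 hz2
      rw [← hz2]
      congr 1
      apply hz1
      intro w
      obtain ⟨ζ, hζ⟩ : ∃ ζ, ζ = p (π z) := ⟨_, rfl⟩
      rw [← hζ] at hz2 ⊢
      have h1 : HasFDerivAt (fun ζ' => z - j (B ζ')) (-fderiv ℝ (fun z => j (B z)) ζ) ζ :=
        ((hq.differentiable (by simp) ζ).hasFDerivAt).const_sub z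
      have h2 := h1.inner ℝ h1
      have h3 : IsLocalMin (fun ζ' => (inner ℝ (z - j (B ζ')) (z - j (B ζ')) : ℝ)) ζ := by
        refine Filter.Eventually.of_forall fun ζ' => ?_
        simp only [real_inner_self_eq_norm_sq]
        have h4 := hπ z (B ζ')
        rw [← hz2] at h4
        exact pow_le_pow_left₀ (norm_nonneg _) h4 2
      have h4 := h3.hasFDerivAt_eq_zero h2
      have h5 := congrArg (fun T : E n →L[ℝ] ℝ => T w) h4
      simp [fderivInnerCLM_apply] at h5
      have h6 := real_inner_comm (z - j (B ζ)) (fderiv ℝ (fun z => j (B z)) ζ w)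
      linarith
    filter_upwards [hkey.eventually_nhds, hh1] with z hz1 hz2
    constructor
    · have h1 : ContinuousAt (fun z => B (h z)) z := (hBl (h z)).continuousAt.comp (f := h) hz2.continuousAt
      exact h1.congr (hz1.mono fun _ h => h.symm)
    · have h1 : ContDiffAt ℝ ∞ (fun z => j (B (h z))) z := hq.contDiffAt.comp (f := h) z hz2
      exact h1.congr_of_eventuallyEq (hz1.mono fun z' hz' => by simp only [hz'])
  refine ⟨π, interior {z | ContinuousAt π z ∧ ContDiffAt ℝ ∞ (fun z => j (π z)) z}, isOpen_interior, ?_, hπj,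
    fun z hz => (interior_subset hz).1, fun z hz => (interior_subset hz).2, hπ2⟩
  rintro _ ⟨y, rfl⟩
  exact mem_interior_iff_mem_nhds.2 (hloc y)

end Pool.Agent.H865_cl
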