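import Pool.Agent.H865_cl.Good2
import Pool.Agent.H865_cl.Retr

/-!
# Smoothing of maps to a closed manifold, with control
-/

set_option autoImplicit false

open Set Filter Topology Metric Function MeasureTheory
open scoped Manifold ContDiff

noncomputable section

namespace Pool.Agent.H865_cl

open Pool.Agent.Y522 (LD)
open Pool.Agent.H865_small (E Zs Adm Imm exists_chartB imm_smooth emb_near emb_near' Zs_pos)

variable {n m k : ℕ} {ρ : ℝ} {X : Type} [TopologicalSpace X] {e : X → E m} [ChartedSpace (E n) X]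
  {N : Type} [TopologicalSpace N] [ChartedSpace (E n) N] [IsManifold (𝓡 n) ∞ N] {j : N → E k} {g : X → N}

/-- **Smoothing with control.** -/
theorem sglob4 [T2Space X] [LocallyCompactSpace X] [IsManifold (𝓡 n) ∞ X] (h1 : ρ ^ 2 < 1) {η0 η : ℝ}
    (hη0 : 0 < η) (hηη : η0 < η) (hA : Adm n ρ η) (hg : Continuous g) (hj : Continuous j)
    (hJ : ∀ y, Imm (n := n) j y) (he : IsEmbedding e) (hI : ∀ x, Imm (n := n) e x)
    {π : E k → N} {Ω : Set (E k)} (hΩ : IsOpen Ω) (hjΩ : range j ⊆ Ω) (hπj : ∀ y, π (j y) = y)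
    (hπc : ∀ z ∈ Ω, ContinuousAt π z) (hπs : ∀ z ∈ Ω, ContDiffAt ℝ ∞ (fun z => j (π z)) z)
    (hπ2 : ∀ z y, ‖j (π z) - j y‖ ≤ 2 * ‖z - j y‖) (hK : IsCompact {x | ¬ LD n g x})
    {S : Set ℝ} (hS : ∃ᶠ s in 𝓝[>] (0 : ℝ), s ∈ S)
    (hη2 : ∀ x, ¬ LD n g x → TRecT (n := n) e (fun x => j (g x)) S η0 x)
    {O' : Set X} (hO' : IsOpen O') (hKO : {x | ¬ LD n g x} ⊆ O') {ε : ℝ} (hε : 0 < ε) :
    ∃ (G : X → N) (C : Set X), IsCompact C ∧ C ⊆ O' ∧ (∀ p, p ∉ C → G p = g p) ∧ (∀ x, LD n G x) ∧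
      ∀ x, ‖j (G x) - j (g x)‖ < ε := by
  obtain ⟨β, hβe⟩ : ∃ β : E n → ℝ, β = fun z => max 0 (1 - ‖z‖) := ⟨_, rfl⟩
  have hβ : Continuous β := by rw [hβe]; fun_prop
  have hβ0 : ∀ z, 0 ≤ β z := fun z => by rw [hβe]; exact le_max_left _ _
  have hβs : ∀ z, 1 < ‖z‖ → β z = 0 := fun z hz => by rw [hβe]; exact max_eq_left (by linarith)
  have hβp : ∀ z, ‖z‖ < 1 → 0 < β z := fun z hz => by
    rw [hβe]; exact lt_max_of_lt_right (by linarith)
  have hF : Continuous fun x => j (g x) := hj.comp hg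
  -- the charts
  choose Bx hBx0 hBxi hBxl using fun x : X => exists_chartB (n := n) x
  have hBo : ∀ x, IsOpen (Bx x '' ball 0 1) := fun x =>
    Pool.Agent.Y522.isOpen_image_of_LD isOpen_ball fun z _ => hBxl x z
  obtain ⟨t, htK⟩ := hK.elim_finite_subcover (fun x => Bx x '' ball 0 1) hBo (by
    intro x _
    exact mem_iUnion.2 ⟨x, 0, by simp, hBx0 x⟩)
  obtain ⟨B, hBe⟩ : ∃ B : t → E n → X, B = fun i : t => Bx i.1 := ⟨_, rfl⟩
  have hBi : ∀ i, Injective (B i) := fun i => by rw [hBe]; exact hBxi _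
  have hBl : ∀ i z, LD n (B i) z := fun i z => by rw [hBe]; exact hBxl _ z
  have hBc : ∀ i, Continuous (B i) := fun i => continuous_iff_continuousAt.2 fun z => (hBl i z).continuousAt
  obtain ⟨W, hW⟩ : ∃ W, W = ⋃ i : t, B i '' ball 0 1 := ⟨_, rfl⟩
  have hWo : IsOpen W := by
    rw [hW]
    exact isOpen_iUnion fun i => by rw [hBe]; exact hBo _
  have hKW : {x | ¬ LD n g x} ⊆ W := by
    intro x hx
    obtain ⟨y, hy⟩ := mem_iUnion.1 (htK hx)
    obtain ⟨hyt, hy⟩ := mem_iUnion.1 hy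
    rw [hW]
    exact mem_iUnion.2 ⟨⟨y, hyt⟩, by rw [hBe]; exact hy⟩
  have hWp : ∀ x ∈ W, ∃ (i : t) (ζ : E n), ‖ζ‖ < 1 ∧ B i ζ = x := by
    intro x hx
    rw [hW] at hx
    obtain ⟨i, ζ, hζ, hx⟩ := mem_iUnion.1 hx
    exact ⟨i, ζ, by rwa [mem_ball_zero_iff] at hζ, hx⟩
  obtain ⟨L, hL, hKL, hLWO⟩ := exists_compact_between hK (hWo.inter hO') (subset_inter hKW hKO)
  have hLW : L ⊆ W := hLWO.trans inter_subset_left
  obtain ⟨O, hO, hOL⟩ := he.toIsInducing.isOpen_iff.1 (isOpen_interior (s := L))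
  obtain ⟨Λ, hΛ1, hΛ2, hΛ3⟩ := exists_contMDiffMap_one_nhds_of_subset_interior (n := ⊤) 𝓘(ℝ, E m) (s := e '' {x | ¬ LD n g x})
    (t := O) (hK.image he.continuous).isClosed (by
      rw [hO.interior_eq]
      rintro _ ⟨x, hx, rfl⟩
      have := hKL hx
      rw [← hOL] at this
      exact this)
  have hΛs : ContDiff ℝ ∞ Λ := Λ.contMDiff.contDiff
  -- the local statement
  have hloc : ∀ x ∈ L, {p : ℝ × X | (p.1 ∈ S → LD n (fun x => π (Fp2 ρ β e (fun x => j (g x)) B Λ p.1 x)) p.2) ∧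
      ‖Gs ρ β (fun i z => e (B i z)) (fun i z => j (g (B i z))) p.1 (e p.2) - j (g p.2)‖ < ε / 2} ∈
        𝓝[>] (0 : ℝ) ×ˢ 𝓝 x := by
    intro x hx
    obtain ⟨i0, ζ, hζ, rfl⟩ := hWp x (hLW hx)
    have hclose : ∀ᶠ t : ℝ × E n in 𝓝[>] (0 : ℝ) ×ˢ 𝓝 ζ,
        ‖Gs ρ β (fun i z => e (B i z)) (fun i z => j (g (B i z))) t.1 (e (B i0 t.2)) - j (g (B i0 t.2))‖ < ε / 2 := by
      have h2 := Gs_tendsto (F := fun x => j (g x)) h1 hβ hβ0 hβs hβp he hF hBc i0 hζ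
      have h3 : Tendsto (fun t : ℝ × E n => j (g (B i0 t.2))) (𝓝[>] 0 ×ˢ 𝓝 ζ) (𝓝 (j (g (B i0 ζ)))) :=
        ((hF.comp (hBc i0)).tendsto ζ).comp tendsto_snd
      have h4 := (h2.sub h3).norm
      rw [sub_self, norm_zero] at h4
      exact h4.eventually (gt_mem_nhds (by positivity))
    have h2 : ∀ᶠ t : ℝ × E n in 𝓝[>] 0 ×ˢ 𝓝 ζ, t.1 ∈ S →
        LD n (fun x => π (Fp2 ρ β e (fun x => j (g x)) B Λ t.1 x)) (B i0 t.2) := by
      by_cases hgd : LD n g (B i0 ζ)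
      · filter_upwards [local_good2 h1 hη0 hA hβ hβ0 hβs hβp he hI hg hj hJ hBi hBl hΩ hjΩ hπj hπc hπs hΛs
          (fun p => (hΛ3 p).1) (fun p => (hΛ3 p).2) i0 hζ hgd] with t ht _
        exact ht
      · have h3 := local_bad2 h1 hηη hA hβ hβ0 hβs hβp he hI hg hj hJ hBi hBl hΩ hjΩ hπj hπc hπs i0 hζ
          (hη2 _ hgd)
        have h4 : ∀ᶠ y in 𝓝 (B i0 ζ), Λ (e y) = 1 :=
          he.continuous.continuousAt.eventually
            (Filter.Eventually.filter_mono (nhds_le_nhdsSet (mem_image_of_mem e hgd)) hΛ1)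
        have h5 : ∀ᶠ z in 𝓝 ζ, ∀ᶠ y in 𝓝 (B i0 z), Λ (e y) = 1 :=
          (hBl i0 ζ).continuousAt.eventually h4.eventually_nhds
        filter_upwards [h3, tendsto_snd.eventually h5] with t ht1 ht2 htS
        refine (ht1 htS).congr ?_
        filter_upwards [ht2] with y hy
        unfold Fp2
        rw [hy, one_smul]
        congr 1
        abel
    obtain ⟨p, hp, hp0, -, hp2⟩ := (hBl i0 ζ).exists_inverse
    have h3 : Tendsto (fun t : ℝ × X => (t.1, p t.2)) (𝓝[>] (0 : ℝ) ×ˢ 𝓝 (B i0 ζ)) (𝓝[>] 0 ×ˢ 𝓝 ζ) := by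
      have h4 : Tendsto p (𝓝 (B i0 ζ)) (𝓝 ζ) := by
        have := hp.continuousAt.tendsto
        rwa [hp0] at this
      exact tendsto_fst.prodMk (h4.comp tendsto_snd)
    filter_upwards [h3.eventually h2, tendsto_snd.eventually hp2, h3.eventually hclose] with t ht1 ht2 ht3
    rw [ht2] at ht1 ht3
    exact ⟨ht1, ht3⟩
  have hunif := hL.mem_prod_nhdsSet_of_forall hloc
  obtain ⟨S', hS', T, hT, hST⟩ := Filter.mem_prod_iff.1 hunif
  have hS'' : ∀ᶠ s in 𝓝[>] (0 : ℝ), s ∈ S' := hS'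
  obtain ⟨s, hsS, hsS'⟩ : ∃ s, s ∈ S ∧ s ∈ S' := (hS.and_eventually hS'').exists
  have hmain : ∀ x ∈ L, (s ∈ S → LD n (fun x => π (Fp2 ρ β e (fun x => j (g x)) B Λ s x)) x) ∧
      ‖Gs ρ β (fun i z => e (B i z)) (fun i z => j (g (B i z))) s (e x) - j (g x)‖ < ε / 2 := by
    intro x hx
    have h9 : (s, x) ∈ S' ×ˢ T := ⟨hsS', subset_of_mem_nhdsSet hT hx⟩
    exact hST h9
  have hoff0 : ∀ x, x ∉ L → Fp2 ρ β e (fun x => j (g x)) B Λ s x = j (g x) := by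
    intro x hx
    have h2 : e x ∉ O := by
      intro h3
      have h4 : x ∈ e ⁻¹' O := h3
      rw [hOL] at h4
      exact hx (interior_subset h4)
    unfold Fp2
    rw [hΛ2 _ h2, zero_smul, add_zero]
  have hoff : ∀ x, x ∉ L → π (Fp2 ρ β e (fun x => j (g x)) B Λ s x) = g x := fun x hx => by
    rw [hoff0 x hx, hπj]
  refine ⟨fun x => π (Fp2 ρ β e (fun x => j (g x)) B Λ s x), L, hL, hLWO.trans inter_subset_right, hoff, ?_, ?_⟩
  · intro x
    by_cases hx : x ∈ L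
    · exact (hmain x hx).1 hsS
    · have hxg : LD n g x := by
        by_contra hcon
        exact hx (interior_subset (hKL hcon))
      refine hxg.congr ?_
      filter_upwards [hL.isClosed.isOpen_compl.mem_nhds hx] with y hy
      exact hoff y hy
  · intro x
    refine (hπ2 _ _).trans_lt ?_
    by_cases hx : x ∈ L
    · have h2 := (hmain x hx).2
      have h3 := (hΛ3 (e x)).1
      have h4 := (hΛ3 (e x)).2
      have h5 : ‖Fp2 ρ β e (fun x => j (g x)) B Λ s x - j (g x)‖ < ε / 2 := by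
        unfold Fp2
        rw [add_sub_cancel_left, norm_smul, Real.norm_eq_abs, abs_of_nonneg h3]
        calc Λ (e x) * ‖Gs ρ β (fun i z => e (B i z)) (fun i z => j (g (B i z))) s (e x) - j (g x)‖
            ≤ 1 * ‖Gs ρ β (fun i z => e (B i z)) (fun i z => j (g (B i z))) s (e x) - j (g x)‖ :=
              mul_le_mul_of_nonneg_right h4 (norm_nonneg _)
          _ < ε / 2 := by rw [one_mul]; exact h2
      linarith
    · rw [hoff0 x hx, sub_self, norm_zero, mul_zero]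
      exact hε

end Pool.Agent.H865_cl
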