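import Pool.Agent.H865_cl.Bad

/-!
# The interpolated maps are local diffeomorphisms at good points
-/

set_option autoImplicit false

open Set Filter Topology Metric Function MeasureTheory
open scoped Manifold ContDiff

noncomputable section

set_option linter.unusedSectionVars false

namespace Pool.Agent.H865_cl

open Pool.Agent.Y522 (LD)
open Pool.Agent.H865_small (E Zs kf om ps_zero ps_nonneg kf_cont kf_contDiff bump_supp param_smooth param_fderiv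
  param_eval int_ineq int_bound Zs_smooth Adm Imm exists_chartB imm_smooth LD_of_inj LD_of_comp all_dirs emb_near
  emb_near' Zs_pos chart_alt lower_lip q_smooth)

variable {n m k : ℕ} {ρ : ℝ} {β : E n → ℝ} {X : Type} [TopologicalSpace X] {ι : Type} [Fintype ι] {e : X → E m}
  {B : ι → E n → X} [ChartedSpace (E n) X] {N : Type} [TopologicalSpace N] [ChartedSpace (E n) N]
  [IsManifold (𝓡 n) ∞ N] {j : N → E k} {g : X → N}

/-- at good points the linear coordinates are recovered -/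
theorem good_rec2 {B0 : E n → X} (he : IsEmbedding e) (hBi : Injective B0) (hBl : ∀ z, LD n B0 z)
    (hq : ContDiff ℝ ∞ fun z => e (B0 z)) {ζ v : E n} (hqd : Injective (fderiv ℝ (fun z => e (B0 z)) ζ))
    (hJ : ∀ y, Imm (n := n) j y)
    (hg : LD n g (B0 ζ)) (hζ : ‖ζ‖ < 1) (hv : v ≠ 0) :
    ∃ ℓ : E k →L[ℝ] ℝ, 0 < ℓ (fderiv ℝ (fun z => j (g (B0 z))) ζ v) ∧ ∃ C1 : ℝ, 0 < C1 ∧ ∀ ε : ℝ, 0 < ε →
      ∀ᶠ t : ℝ × E n × E n in 𝓝[>] 0 ×ˢ 𝓝 ζ ×ˢ 𝓝 v, ∀ u : X, ‖e u - e (B0 t.2.1)‖ ≤ t.1 →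
        |ℓ (j (g u)) + -ℓ (j (g (B0 t.2.1))) - inner ℝ (fderiv ℝ (fun z => e (B0 z)) t.2.1 t.2.2) (e u - e (B0 t.2.1))| ≤
          ε * t.1 ∧ ‖j (g u) - j (g (B0 t.2.1))‖ ≤ C1 * t.1 := by
  have hBc : Continuous B0 := continuous_iff_continuousAt.2 fun z => (hBl z).continuousAt
  have hfl : LD n (fun z => g (B0 z)) ζ := Pool.Agent.Y522.LD.comp_fun hg (hBl ζ)
  obtain ⟨hfc, hfi⟩ := imm_smooth (B := fun z => g (B0 z)) (hJ _) hfl
  obtain ⟨A, hA⟩ : ∃ A, A = fderiv ℝ (fun z => j (g (B0 z))) ζ := ⟨_, rfl⟩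
  have hfs : HasStrictFDerivAt (fun z => j (g (B0 z))) A ζ := by
    rw [hA]
    exact hfc.hasStrictFDerivAt (by simp)
  rw [← hA] at hfi
  obtain ⟨T0, hT0⟩ := LinearMap.exists_leftInverse_of_injective A.toLinearMap (LinearMap.ker_eq_bot.2 hfi)
  obtain ⟨T, hT⟩ : ∃ T : E k →L[ℝ] E n, ∀ w, T (A w) = w :=
    ⟨LinearMap.toContinuousLinearMap T0, fun w => congrArg (fun f : E n →ₗ[ℝ] E n => f w) hT0⟩
  obtain ⟨J, hJ⟩ : ∃ J, J = fderiv ℝ (fun z => e (B0 z)) ζ := ⟨_, rfl⟩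
  have hqs : HasStrictFDerivAt (fun z => e (B0 z)) J ζ := by
    rw [hJ]
    exact hq.contDiffAt.hasStrictFDerivAt (by simp)
  rw [← hJ] at hqd
  obtain ⟨c, hc, hlow⟩ := lower_lip hq.continuous (he.injective.comp hBi) hqs hqd
  obtain ⟨V, hV⟩ : ∃ V, V = J v := ⟨_, rfl⟩
  have hV0 : V ≠ 0 := by
    intro h
    apply hv
    apply hqd
    rw [map_zero, ← hV, h]
  have hVn : 0 < ‖V‖ := norm_pos_iff.2 hV0
  obtain ⟨ℓ, hℓ⟩ : ∃ ℓ : E k →L[ℝ] ℝ, ∀ w, ℓ w = inner ℝ V (J (T w)) :=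
    ⟨(innerSL ℝ V).comp (J.comp T), fun w => rfl⟩
  refine ⟨ℓ, ?_, (‖A‖ + 1) / c, by positivity, fun ε hε => ?_⟩
  · rw [← hA, hℓ, hT, ← hV, real_inner_self_eq_norm_sq]
    positivity
  -- the choice of the constants
  obtain ⟨ε1, hε1⟩ : ∃ ε1, ε1 = min 1 (ε * c / (2 * (‖ℓ‖ + ‖V‖ + 1))) := ⟨_, rfl⟩
  have hε1p : 0 < ε1 := by rw [hε1]; exact lt_min one_pos (by positivity)
  have hε11 : ε1 ≤ 1 := by rw [hε1]; exact min_le_left _ _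
  have hε12 : ε1 ≤ ε * c / (2 * (‖ℓ‖ + ‖V‖ + 1)) := by rw [hε1]; exact min_le_right _ _
  have h1 := hfs.isLittleO.def hε1p
  have h2 := hqs.isLittleO.def hε1p
  obtain ⟨δ, hδ, hδ2⟩ := Metric.eventually_nhds_iff_ball.1 (h1.and h2)
  have hin : ∀ z z' : E n, z ∈ ball ζ δ → z' ∈ ball ζ δ →
      ‖j (g (B0 z)) - j (g (B0 z')) - A (z - z')‖ ≤ ε1 * ‖z - z'‖ ∧ ‖e (B0 z) - e (B0 z') - J (z - z')‖ ≤ ε1 * ‖z - z'‖ := by
    intro z z' hz hz'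
    have h3 := hδ2 (z, z') (by
      rw [mem_ball, Prod.dist_eq]
      exact max_lt hz hz')
    exact h3
  obtain ⟨p, hp, hp0, -, hp2⟩ := (hBl ζ).exists_inverse
  have hpc : ContinuousAt p (B0 ζ) := hp.continuousAt
  have hU : {y | B0 (p y) = y ∧ p y ∈ ball ζ δ ∧ ‖p y‖ < 1} ∈ 𝓝 (B0 ζ) := by
    have h3 : ∀ᶠ y in 𝓝 (B0 ζ), p y ∈ ball ζ δ := by
      apply hpc
      rw [hp0]
      exact ball_mem_nhds ζ hδ
    have h4 : ∀ᶠ y in 𝓝 (B0 ζ), p y ∈ ball (0 : E n) 1 := by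
      apply hpc
      rw [hp0]
      exact isOpen_ball.mem_nhds (by rw [mem_ball_zero_iff]; exact hζ)
    filter_upwards [hp2, h3, h4] with y hy1 hy2 hy3
    rw [mem_ball_zero_iff] at hy3
    exact ⟨hy1, hy2, hy3⟩
  have hfst : Tendsto (fun t : ℝ × E n × E n => (t.1, t.2.1)) (𝓝[>] 0 ×ˢ 𝓝 ζ ×ˢ 𝓝 v) (𝓝[>] 0 ×ˢ 𝓝 ζ) :=
    tendsto_fst.prodMk (tendsto_fst.comp tendsto_snd)
  have tζ : Tendsto (fun t : ℝ × E n × E n => t.2.1) (𝓝[>] 0 ×ˢ 𝓝 ζ ×ˢ 𝓝 v) (𝓝 ζ) :=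
    tendsto_fst.comp tendsto_snd
  have ts : Tendsto (fun t : ℝ × E n × E n => t.1) (𝓝[>] 0 ×ˢ 𝓝 ζ ×ˢ 𝓝 v) (𝓝[>] 0) := tendsto_fst
  have tV : Tendsto (fun t : ℝ × E n × E n => ‖fderiv ℝ (fun z => e (B0 z)) t.2.1 t.2.2 - V‖)
      (𝓝[>] 0 ×ˢ 𝓝 ζ ×ˢ 𝓝 v) (𝓝 0) := by
    have h1 : Continuous fun p : E n × E n => fderiv ℝ (fun z => e (B0 z)) p.1 p.2 :=
      ((hq.continuous_fderiv (by simp)).comp continuous_fst).clm_apply continuous_snd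
    have h2 := h1.tendsto (ζ, v)
    rw [nhds_prod_eq] at h2
    simp only at h2
    rw [← hJ, ← hV] at h2
    have h3 := ((h2.comp (tendsto_snd (f := 𝓝[>] (0 : ℝ)) (g := 𝓝 ζ ×ˢ 𝓝 v))).sub_const V).norm
    rw [sub_self, norm_zero] at h3
    exact h3
  filter_upwards [hfst.eventually (emb_near he hBc.continuousAt hU), tζ.eventually (ball_mem_nhds ζ hδ),
    tζ.eventually hlow, tV.eventually (gt_mem_nhds (show 0 < ε / 2 by positivity)),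
    ts.eventually self_mem_nhdsWithin] with t ht1 ht2 ht3 ht4 ht5 u hu
  obtain ⟨hu1, hu2, hu3⟩ := ht1 u hu
  obtain ⟨z, hz⟩ : ∃ z, z = p u := ⟨_, rfl⟩
  rw [← hz] at hu1 hu2 hu3
  obtain ⟨h5, h6⟩ := hin z t.2.1 hu2 ht2
  have h7 := ht3 z hu3.le
  rw [← hu1] at hu ⊢
  have hs : (0 : ℝ) < t.1 := ht5
  have h8 : ‖z - t.2.1‖ ≤ t.1 / c := by
    rw [le_div_iff₀ hc, mul_comm]
    exact h7.trans hu
  have h20 : ‖j (g (B0 z)) - j (g (B0 t.2.1))‖ ≤ (‖A‖ + 1) / c * t.1 := by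
    have h21 : j (g (B0 z)) - j (g (B0 t.2.1)) = (j (g (B0 z)) - j (g (B0 t.2.1)) - A (z - t.2.1)) + A (z - t.2.1) := by
      abel
    rw [h21]
    refine (norm_add_le _ _).trans ?_
    have h22 := A.le_opNorm (z - t.2.1)
    have h23 : ε1 * ‖z - t.2.1‖ ≤ 1 * ‖z - t.2.1‖ := mul_le_mul_of_nonneg_right hε11 (norm_nonneg _)
    calc ‖j (g (B0 z)) - j (g (B0 t.2.1)) - A (z - t.2.1)‖ + ‖A (z - t.2.1)‖
        ≤ 1 * ‖z - t.2.1‖ + ‖A‖ * ‖z - t.2.1‖ := add_le_add (h5.trans h23) h22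
      _ = (‖A‖ + 1) * ‖z - t.2.1‖ := by ring
      _ ≤ (‖A‖ + 1) * (t.1 / c) := mul_le_mul_of_nonneg_left h8 (by positivity)
      _ = (‖A‖ + 1) / c * t.1 := by ring
  refine ⟨?_, h20⟩
  obtain ⟨W, hW⟩ : ∃ W, W = fderiv ℝ (fun z => e (B0 z)) t.2.1 t.2.2 := ⟨_, rfl⟩
  rw [← hW] at ht4 ⊢
  have e1 : ℓ (A (z - t.2.1)) = inner ℝ V (J (z - t.2.1)) := by
    rw [hℓ, hT]
  have e2 : ℓ (j (g (B0 z))) + -ℓ (j (g (B0 t.2.1))) - inner ℝ W (e (B0 z) - e (B0 t.2.1)) =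
      ℓ (j (g (B0 z)) - j (g (B0 t.2.1)) - A (z - t.2.1)) - inner ℝ V (e (B0 z) - e (B0 t.2.1) - J (z - t.2.1)) -
        inner ℝ (W - V) (e (B0 z) - e (B0 t.2.1)) := by
    rw [inner_sub_right V, inner_sub_left, map_sub ℓ (j (g (B0 z)) - j (g (B0 t.2.1))), map_sub ℓ (j (g (B0 z))), e1]
    ring
  rw [e2]
  have b1 : |ℓ (j (g (B0 z)) - j (g (B0 t.2.1)) - A (z - t.2.1))| ≤ ‖ℓ‖ * (ε1 * (t.1 / c)) := by
    rw [← Real.norm_eq_abs]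
    refine (ℓ.le_opNorm _).trans (mul_le_mul_of_nonneg_left (h5.trans ?_) (norm_nonneg _))
    exact mul_le_mul_of_nonneg_left h8 hε1p.le
  have b2 : |inner ℝ V (e (B0 z) - e (B0 t.2.1) - J (z - t.2.1))| ≤ ‖V‖ * (ε1 * (t.1 / c)) := by
    refine (abs_real_inner_le_norm _ _).trans (mul_le_mul_of_nonneg_left (h6.trans ?_) (norm_nonneg _))
    exact mul_le_mul_of_nonneg_left h8 hε1p.le
  have b3 : |inner ℝ (W - V) (e (B0 z) - e (B0 t.2.1))| ≤ ε / 2 * t.1 := by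
    refine (abs_real_inner_le_norm _ _).trans ?_
    exact mul_le_mul ht4.le hu (norm_nonneg _) (by positivity)
  have b4 : (‖ℓ‖ + ‖V‖) * (ε1 * (t.1 / c)) ≤ ε / 2 * t.1 := by
    have h12 : (‖ℓ‖ + ‖V‖) * (ε1 * (t.1 / c)) ≤ (‖ℓ‖ + ‖V‖) * (ε * c / (2 * (‖ℓ‖ + ‖V‖ + 1)) * (t.1 / c)) :=
      mul_le_mul_of_nonneg_left (mul_le_mul_of_nonneg_right hε12 (by positivity)) (by positivity)
    refine h12.trans ?_
    have h9 : (‖ℓ‖ + ‖V‖) * (ε * c / (2 * (‖ℓ‖ + ‖V‖ + 1)) * (t.1 / c)) =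
        ε / 2 * t.1 * ((‖ℓ‖ + ‖V‖) / (‖ℓ‖ + ‖V‖ + 1)) := by field_simp
    rw [h9]
    have h10 : (‖ℓ‖ + ‖V‖) / (‖ℓ‖ + ‖V‖ + 1) ≤ 1 := by
      rw [div_le_one (by positivity)]
      linarith
    have h11 : 0 ≤ ε / 2 * t.1 := by positivity
    nlinarith
  have b5 := abs_sub (ℓ (j (g (B0 z)) - j (g (B0 t.2.1)) - A (z - t.2.1)) -
    inner ℝ V (e (B0 z) - e (B0 t.2.1) - J (z - t.2.1))) (inner ℝ (W - V) (e (B0 z) - e (B0 t.2.1)))
  have b6 := abs_sub (ℓ (j (g (B0 z)) - j (g (B0 t.2.1)) - A (z - t.2.1)))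
    (inner ℝ V (e (B0 z) - e (B0 t.2.1) - J (z - t.2.1)))
  nlinarith

theorem tendsto_app {a b : ℕ} {α : Type} {l : Filter α} {f : α → E a →L[ℝ] E b} {x : α → E a} {f0 : E a →L[ℝ] E b}
    {x0 : E a} (hf : Tendsto f l (𝓝 f0)) (hx : Tendsto x l (𝓝 x0)) : Tendsto (fun t => f t (x t)) l (𝓝 (f0 x0)) := by
  have h1 : Continuous fun p : (E a →L[ℝ] E b) × E a => p.1 p.2 := continuous_fst.clm_apply continuous_snd
  exact (h1.tendsto (f0, x0)).comp (hf.prodMk_nhds hx)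

/-- the interpolated map -/
def Fp2 (ρ : ℝ) (β : E n → ℝ) (e : X → E m) (F : X → E k) (B : ι → E n → X) (Λ : E m → ℝ) (s : ℝ) (x : X) : E k :=
  F x + Λ (e x) • (Gs ρ β (fun i z => e (B i z)) (fun i z => F (B i z)) s (e x) - F x)

theorem Fp2_tendsto (h1 : ρ ^ 2 < 1) (hβ : Continuous β) (hβ0 : ∀ z, 0 ≤ β z)
    (hβs : ∀ z, 1 < ‖z‖ → β z = 0) (hβp : ∀ z, ‖z‖ < 1 → 0 < β z) {F : X → E k}
    (he : IsEmbedding e) (hF : Continuous F) (hBc : ∀ i, Continuous (B i)) {Λ : E m → ℝ}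
    (hΛ0 : ∀ p, 0 ≤ Λ p) (hΛ1 : ∀ p, Λ p ≤ 1) (i0 : ι) {ζ : E n} (hζ : ‖ζ‖ < 1) :
    Tendsto (fun t : ℝ × E n => Fp2 ρ β e F B Λ t.1 (B i0 t.2)) (𝓝[>] 0 ×ˢ 𝓝 ζ) (𝓝 (F (B i0 ζ))) := by
  have h2 := Gs_tendsto (F := F) h1 hβ hβ0 hβs hβp he hF hBc i0 hζ
  have h3 : Tendsto (fun t : ℝ × E n => F (B i0 t.2)) (𝓝[>] 0 ×ˢ 𝓝 ζ) (𝓝 (F (B i0 ζ))) :=
    ((hF.comp (hBc i0)).tendsto ζ).comp tendsto_snd
  have h4 : Tendsto (fun t : ℝ × E n => Λ (e (B i0 t.2)) • (Gs ρ β (fun i z => e (B i z)) (fun i z => F (B i z)) t.1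
      (e (B i0 t.2)) - F (B i0 t.2))) (𝓝[>] 0 ×ˢ 𝓝 ζ) (𝓝 0) := by
    have h5 := (h2.sub h3).norm
    rw [sub_self, norm_zero] at h5
    refine squeeze_zero_norm (fun t => ?_) h5
    rw [norm_smul, Real.norm_eq_abs, abs_of_nonneg (hΛ0 _)]
    exact mul_le_of_le_one_left (norm_nonneg _) (hΛ1 _)
  have h5 := h3.add h4
  rw [add_zero] at h5
  exact h5

/-- the case of a good point -/
theorem local_good2 (h1 : ρ ^ 2 < 1) {η : ℝ} (hη0 : 0 < η) (hA : Adm n ρ η)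
    (hβ : Continuous β) (hβ0 : ∀ z, 0 ≤ β z) (hβs : ∀ z, 1 < ‖z‖ → β z = 0) (hβp : ∀ z, ‖z‖ < 1 → 0 < β z)
    (he : IsEmbedding e) (hI : ∀ x, Imm (n := n) e x) (hg : Continuous g) (hj : Continuous j)
    (hJ : ∀ y, Imm (n := n) j y) (hBi : ∀ i, Injective (B i)) (hBl : ∀ i z, LD n (B i) z)
    {π : E k → N} {Ω : Set (E k)} (hΩ : IsOpen Ω) (hjΩ : range j ⊆ Ω) (hπj : ∀ y, π (j y) = y)
    (hπc : ∀ z ∈ Ω, ContinuousAt π z) (hπs : ∀ z ∈ Ω, ContDiffAt ℝ ∞ (fun z => j (π z)) z)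
    {Λ : E m → ℝ} (hΛ : ContDiff ℝ ∞ Λ) (hΛ0 : ∀ p, 0 ≤ Λ p) (hΛ1 : ∀ p, Λ p ≤ 1)
    (i0 : ι) {ζ : E n} (hζ : ‖ζ‖ < 1) (hgood : LD n g (B i0 ζ)) :
    ∀ᶠ t : ℝ × E n in 𝓝[>] 0 ×ˢ 𝓝 ζ, LD n (fun x => π (Fp2 ρ β e (fun x => j (g x)) B Λ t.1 x)) (B i0 t.2) := by
  have hBc : ∀ i, Continuous (B i) := fun i => continuous_iff_continuousAt.2 fun z => (hBl i z).continuousAt
  have hq : ∀ i, ContDiff ℝ ∞ (fun z => e (B i z)) := q_smooth hI hBl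
  have hqd : ∀ i z, Injective (fderiv ℝ (fun z => e (B i z)) z) := fun i z => (imm_smooth (hI _) (hBl i z)).2
  have hqi : ∀ i, Injective (fun z => e (B i z)) := fun i => he.injective.comp (hBi i)
  have hF : Continuous fun x => j (g x) := hj.comp hg
  have hgc : ∀ i, Continuous (fun z => j (g (B i z))) := fun i => hF.comp (hBc i)
  have hfl : LD n (fun z => g (B i0 z)) ζ := Pool.Agent.Y522.LD.comp_fun hgood (hBl i0 ζ)
  have hfev : ∀ᶠ y in 𝓝 ζ, LD n (fun z => g (B i0 z)) y := hfl.eventually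
  have hfc : ∀ y, LD n (fun z => g (B i0 z)) y → ContDiffAt ℝ ∞ (fun z => j (g (B i0 z))) y := fun y hy =>
    (imm_smooth (B := fun z => g (B i0 z)) (hJ _) hy).1
  have hball : ∀ᶠ y in 𝓝 ζ, ‖y‖ < 1 := by
    have := isOpen_ball.mem_nhds (show ζ ∈ ball (0 : E n) 1 by rw [mem_ball_zero_iff]; exact hζ)
    filter_upwards [this] with y hy
    rwa [mem_ball_zero_iff] at hy
  have hGs : ∀ s (y : E n), ‖y‖ < 1 →
      ContDiffAt ℝ ∞ (Gs ρ β (fun i z => e (B i z)) (fun i z => j (g (B i z))) s) (e (B i0 y)) := fun s y hy =>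
    Gs_smooth (g := fun i z => j (g (B i z))) hβ hβs hq hgc s
      (Zs_pos (q := fun i z => e (B i z)) h1 hβ hβ0 hβs hβp (fun i => (hq i).continuous) i0 hy).ne'
  have htend : Tendsto (fun t : ℝ × E n => Fp2 ρ β e (fun x => j (g x)) B Λ t.1 (B i0 t.2)) (𝓝[>] 0 ×ˢ 𝓝 ζ)
      (𝓝 (j (g (B i0 ζ)))) :=
    Fp2_tendsto (F := fun x => j (g x)) h1 hβ hβ0 hβs hβp he hF hBc hΛ0 hΛ1 i0 hζ
  have hΩev : ∀ᶠ t : ℝ × E n in 𝓝[>] 0 ×ˢ 𝓝 ζ, Fp2 ρ β e (fun x => j (g x)) B Λ t.1 (B i0 t.2) ∈ Ω :=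
    htend.eventually (hΩ.mem_nhds (hjΩ (mem_range_self _)))
  have hRp : ContDiffAt ℝ ∞ (fun z => j (π z)) (j (g (B i0 ζ))) := hπs _ (hjΩ (mem_range_self _))
  -- the derivative
  have hder0 : ∀ s (y : E n), ‖y‖ < 1 → LD n (fun z => g (B i0 z)) y →
      HasFDerivAt (fun z => Fp2 ρ β e (fun x => j (g x)) B Λ s (B i0 z))
        (fderiv ℝ (fun z => Fp2 ρ β e (fun x => j (g x)) B Λ s (B i0 z)) y) y ∧ ∀ v,
      fderiv ℝ (fun z => Fp2 ρ β e (fun x => j (g x)) B Λ s (B i0 z)) y v = fderiv ℝ (fun z => j (g (B i0 z))) y v +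
        (Λ (e (B i0 y)) • (fderiv ℝ (Gs ρ β (fun i z => e (B i z)) (fun i z => j (g (B i z))) s) (e (B i0 y))
          (fderiv ℝ (fun z => e (B i0 z)) y v) - fderiv ℝ (fun z => j (g (B i0 z))) y v) +
        (fderiv ℝ Λ (e (B i0 y)) (fderiv ℝ (fun z => e (B i0 z)) y v)) •
          (Gs ρ β (fun i z => e (B i z)) (fun i z => j (g (B i z))) s (e (B i0 y)) - j (g (B i0 y)))) := by
    intro s y hy hyl
    have d1 : HasFDerivAt (fun z => j (g (B i0 z))) (fderiv ℝ (fun z => j (g (B i0 z))) y) y :=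
      ((hfc y hyl).differentiableAt (by simp)).hasFDerivAt
    have d2 : HasFDerivAt (fun z => e (B i0 z)) (fderiv ℝ (fun z => e (B i0 z)) y) y :=
      ((hq i0).differentiable (by simp) _).hasFDerivAt
    have d3 : HasFDerivAt (fun z => Gs ρ β (fun i z => e (B i z)) (fun i z => j (g (B i z))) s (e (B i0 z)))
        ((fderiv ℝ (Gs ρ β (fun i z => e (B i z)) (fun i z => j (g (B i z))) s) (e (B i0 y))).comp
          (fderiv ℝ (fun z => e (B i0 z)) y)) y :=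
      HasFDerivAt.comp (g := Gs ρ β (fun i z => e (B i z)) (fun i z => j (g (B i z))) s)
        (f := fun z => e (B i0 z)) y ((hGs s y hy).differentiableAt (by simp)).hasFDerivAt d2
    have d4 : HasFDerivAt (fun z => Λ (e (B i0 z)))
        ((fderiv ℝ Λ (e (B i0 y))).comp (fderiv ℝ (fun z => e (B i0 z)) y)) y :=
      HasFDerivAt.comp (g := Λ) (f := fun z => e (B i0 z)) y (hΛ.differentiable (by simp) _).hasFDerivAt d2
    have d5 := d1.fun_add (d4.fun_smul (d3.fun_sub d1))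
    have d6 : (fun z => Fp2 ρ β e (fun x => j (g x)) B Λ s (B i0 z)) = fun z => j (g (B i0 z)) + Λ (e (B i0 z)) •
      (Gs ρ β (fun i z => e (B i z)) (fun i z => j (g (B i z))) s (e (B i0 z)) - j (g (B i0 z))) := rfl
    constructor
    · rw [d6]
      exact d5.differentiableAt.hasFDerivAt
    · intro v
      rw [d6, d5.fderiv]
      rfl
  have hsm : ∀ s (y : E n), ‖y‖ < 1 → LD n (fun z => g (B i0 z)) y →
      ContDiffAt ℝ ∞ (fun z => Fp2 ρ β e (fun x => j (g x)) B Λ s (B i0 z)) y := by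
    intro s y hy hyl
    have d3 : ContDiffAt ℝ ∞ (fun z => Gs ρ β (fun i z => e (B i z)) (fun i z => j (g (B i z))) s (e (B i0 z))) y :=
      ContDiffAt.comp (g := Gs ρ β (fun i z => e (B i z)) (fun i z => j (g (B i z))) s)
        (f := fun z => e (B i0 z)) y (hGs s y hy) (hq i0).contDiffAt
    have d4 : ContDiffAt ℝ ∞ (fun z => Λ (e (B i0 z))) y :=
      ContDiffAt.comp (g := Λ) (f := fun z => e (B i0 z)) y hΛ.contDiffAt (hq i0).contDiffAt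
    exact (hfc y hyl).add (d4.smul (d3.sub (hfc y hyl)))
  have hkey : ∀ᶠ t : ℝ × E n in 𝓝[>] 0 ×ˢ 𝓝 ζ, ∀ v : E n, ‖v‖ = 1 →
      fderiv ℝ (fun z => j (π z)) (Fp2 ρ β e (fun x => j (g x)) B Λ t.1 (B i0 t.2))
        (fderiv ℝ (fun z => Fp2 ρ β e (fun x => j (g x)) B Λ t.1 (B i0 z)) t.2 v) ≠ 0 := by
    refine all_dirs (P := fun s y v => fderiv ℝ (fun z => j (π z)) (Fp2 ρ β e (fun x => j (g x)) B Λ s (B i0 y))
      (fderiv ℝ (fun z => Fp2 ρ β e (fun x => j (g x)) B Λ s (B i0 z)) y v) ≠ 0) fun v hv => ?_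
    have hv0 : v ≠ 0 := by
      rw [← norm_pos_iff, hv]; exact one_pos
    obtain ⟨c0, hc0, hlow⟩ := main_low (g := fun i z => j (g (B i z))) h1 hA hβ hβ0 hβs hq hgc hqi hqd i0 hζ
      (hβp ζ hζ) hv0 (fun i => chart_alt he.injective (hBl i) (hBl i0) (hq i) ζ v)
    obtain ⟨ℓ, hℓ0, C1, hC1, hℓ⟩ := good_rec2 he (hBi i0) (hBl i0) (hq i0) (hqd i0 ζ) hJ hgood hζ hv0
    obtain ⟨V, hV⟩ : ∃ V, V = fderiv ℝ (fun z => e (B i0 z)) ζ v := ⟨_, rfl⟩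
    have hV0 : V ≠ 0 := by
      intro h
      apply hv0
      apply hqd i0 ζ
      rw [map_zero, ← hV, h]
    have hVn : 0 < ‖V‖ := norm_pos_iff.2 hV0
    obtain ⟨c1, hc1⟩ : ∃ c1, c1 = ℓ (fderiv ℝ (fun z => j (g (B i0 z))) ζ v) := ⟨_, rfl⟩
    rw [← hc1] at hℓ0
    have tζ : Tendsto (fun t : ℝ × E n × E n => t.2.1) (𝓝[>] 0 ×ˢ 𝓝 ζ ×ˢ 𝓝 v) (𝓝 ζ) :=
      tendsto_fst.comp tendsto_snd
    have ts : Tendsto (fun t : ℝ × E n × E n => t.1) (𝓝[>] 0 ×ˢ 𝓝 ζ ×ˢ 𝓝 v) (𝓝[>] 0) := tendsto_fst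
    have tv : Tendsto (fun t : ℝ × E n × E n => t.2.2) (𝓝[>] 0 ×ˢ 𝓝 ζ ×ˢ 𝓝 v) (𝓝 v) :=
      tendsto_snd.comp tendsto_snd
    have tV : Tendsto (fun t : ℝ × E n × E n => fderiv ℝ (fun z => e (B i0 z)) t.2.1 t.2.2)
        (𝓝[>] 0 ×ˢ 𝓝 ζ ×ˢ 𝓝 v) (𝓝 V) := by
      have h1 : Continuous fun p : E n × E n => fderiv ℝ (fun z => e (B i0 z)) p.1 p.2 :=
        (((hq i0).continuous_fderiv (by simp)).comp continuous_fst).clm_apply continuous_snd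
      have h2 := h1.tendsto (ζ, v)
      rw [nhds_prod_eq] at h2
      rw [hV]
      exact h2.comp tendsto_snd
    have hfst : Tendsto (fun t : ℝ × E n × E n => (t.1, t.2.1)) (𝓝[>] 0 ×ˢ 𝓝 ζ ×ˢ 𝓝 v) (𝓝[>] 0 ×ˢ 𝓝 ζ) :=
      tendsto_fst.prodMk (tendsto_fst.comp tendsto_snd)
    have tz : Tendsto (fun t : ℝ × E n × E n => Fp2 ρ β e (fun x => j (g x)) B Λ t.1 (B i0 t.2.1))
        (𝓝[>] 0 ×ˢ 𝓝 ζ ×ˢ 𝓝 v) (𝓝 (j (g (B i0 ζ)))) := htend.comp hfst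
    have tR : Tendsto (fun t : ℝ × E n × E n => fderiv ℝ (fun z => j (π z))
        (Fp2 ρ β e (fun x => j (g x)) B Λ t.1 (B i0 t.2.1))) (𝓝[>] 0 ×ˢ 𝓝 ζ ×ˢ 𝓝 v)
        (𝓝 (fderiv ℝ (fun z => j (π z)) (j (g (B i0 ζ))))) := by
      have h3 : ContinuousAt (fderiv ℝ (fun z => j (π z))) (j (g (B i0 ζ))) :=
        (hRp.fderiv_right (m := 0) (by simp)).continuousAt
      exact h3.tendsto.comp tz
    have hRid : fderiv ℝ (fun z => j (π z)) (j (g (B i0 ζ))) (fderiv ℝ (fun z => j (g (B i0 z))) ζ v) =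
        fderiv ℝ (fun z => j (g (B i0 z))) ζ v := by
      have h3 : HasFDerivAt (fun z => j (π (j (g (B i0 z))))) ((fderiv ℝ (fun z => j (π z)) (j (g (B i0 ζ)))).comp
          (fderiv ℝ (fun z => j (g (B i0 z))) ζ)) ζ :=
        HasFDerivAt.comp (g := fun z => j (π z)) (f := fun z => j (g (B i0 z))) ζ
          (hRp.differentiableAt (by simp)).hasFDerivAt ((hfc ζ hfl).differentiableAt (by simp)).hasFDerivAt
      have h4 : (fun z => j (π (j (g (B i0 z))))) = fun z => j (g (B i0 z)) := by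
        funext z
        rw [hπj]
      rw [h4] at h3
      rw [← ContinuousLinearMap.comp_apply, ← h3.fderiv]
    have tc1 : Tendsto (fun t : ℝ × E n × E n => ℓ (fderiv ℝ (fun z => j (π z))
        (Fp2 ρ β e (fun x => j (g x)) B Λ t.1 (B i0 t.2.1)) (fderiv ℝ (fun z => j (g (B i0 z))) t.2.1 t.2.2)))
        (𝓝[>] 0 ×ˢ 𝓝 ζ ×ˢ 𝓝 v) (𝓝 c1) := by
      have h2 : ContinuousAt (fderiv ℝ (fun z => j (g (B i0 z)))) ζ :=
        ((hfc ζ hfl).fderiv_right (m := 0) (by simp)).continuousAt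
      have h3 : Tendsto (fun t : ℝ × E n × E n => fderiv ℝ (fun z => j (g (B i0 z))) t.2.1 t.2.2)
          (𝓝[>] 0 ×ˢ 𝓝 ζ ×ˢ 𝓝 v) (𝓝 (fderiv ℝ (fun z => j (g (B i0 z))) ζ v)) :=
        tendsto_app (h2.tendsto.comp tζ) tv
      have h4 := (ℓ.continuous.tendsto _).comp (tendsto_app tR h3)
      rw [hRid, ← hc1] at h4
      exact h4
    have tΛ : Tendsto (fun t : ℝ × E n × E n => |fderiv ℝ Λ (e (B i0 t.2.1))
        (fderiv ℝ (fun z => e (B i0 z)) t.2.1 t.2.2)|) (𝓝[>] 0 ×ˢ 𝓝 ζ ×ˢ 𝓝 v) (𝓝 |fderiv ℝ Λ (e (B i0 ζ)) V|) := by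
      have h1 : Continuous fun p : E m × E m => fderiv ℝ Λ p.1 p.2 :=
        ((hΛ.continuous_fderiv (by simp)).comp continuous_fst).clm_apply continuous_snd
      have h2 := h1.tendsto (e (B i0 ζ), V)
      rw [nhds_prod_eq] at h2
      have h3 : Tendsto (fun t : ℝ × E n × E n => e (B i0 t.2.1)) (𝓝[>] 0 ×ˢ 𝓝 ζ ×ˢ 𝓝 v) (𝓝 (e (B i0 ζ))) :=
        ((hq i0).continuous.tendsto ζ).comp tζ
      exact (h2.comp (h3.prodMk tV)).abs
    obtain ⟨C, hC⟩ : ∃ C, C = |fderiv ℝ Λ (e (B i0 ζ)) V| + 1 := ⟨_, rfl⟩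
    have hCp : 0 < C := by rw [hC]; positivity
    obtain ⟨κ, hκ⟩ : ∃ κ, κ = min c0 (c1 / 2) := ⟨_, rfl⟩
    have hκp : 0 < κ := by rw [hκ]; exact lt_min hc0 (by positivity)
    have hsev : ∀ᶠ s in 𝓝[>] (0 : ℝ), 0 < s ∧ s < κ / (C * ((1 + η) * (‖V‖ + 1))) :=
      Ioo_mem_nhdsGT (by positivity)
    -- the accuracy
    obtain ⟨w, hw⟩ : ∃ w, w = η * ‖V‖ / 4 / (‖ℓ‖ * C1 + 1) := ⟨_, rfl⟩
    have hℓC : 0 ≤ ‖ℓ‖ * C1 := by positivity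
    have hwp : 0 < w := by rw [hw]; positivity
    have hwC : w * (‖ℓ‖ * C1) ≤ η * ‖V‖ / 4 := by
      have h2 : w * (‖ℓ‖ * C1 + 1) = η * ‖V‖ / 4 := by
        rw [hw]; field_simp
      nlinarith
    obtain ⟨δ, hδ, hδ2⟩ := retr_diff hRp hwp
    have hU : (fun x => j (g x)) ⁻¹' (ball (j (g (B i0 ζ))) δ) ∈ 𝓝 (B i0 ζ) := hF.continuousAt (ball_mem_nhds _ hδ)
    have hUy : ∀ᶠ y in 𝓝 ζ, ‖j (g (B i0 y)) - j (g (B i0 ζ))‖ < δ := by
      have h2 : ContinuousAt (fun y => j (g (B i0 y))) ζ := (hgc i0).continuousAt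
      filter_upwards [h2 (ball_mem_nhds _ hδ)] with y hy
      rw [mem_preimage, mem_ball, dist_eq_norm] at hy
      exact hy
    have hz : ∀ᶠ t : ℝ × E n × E n in 𝓝[>] 0 ×ˢ 𝓝 ζ ×ˢ 𝓝 v,
        ‖Fp2 ρ β e (fun x => j (g x)) B Λ t.1 (B i0 t.2.1) - j (g (B i0 ζ))‖ < δ := by
      filter_upwards [tz (ball_mem_nhds _ hδ)] with t ht
      rw [mem_preimage, mem_ball, dist_eq_norm] at ht
      exact ht
    filter_upwards [hlow, hℓ (η * ‖V‖ / 4) (by positivity), tζ.eventually hfev, tζ.eventually hball,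
      ts.eventually hsev, tc1.eventually (lt_mem_nhds (show c1 / 2 < c1 by linarith)),
      tV.norm.eventually (lt_mem_nhds (show ‖V‖ / 2 < ‖V‖ by linarith)),
      tV.norm.eventually (gt_mem_nhds (show ‖V‖ < ‖V‖ + 1 by linarith)),
      tΛ.eventually (gt_mem_nhds (show |fderiv ℝ Λ (e (B i0 ζ)) V| < C by rw [hC]; linarith)),
      hfst.eventually (emb_near he (hBc i0).continuousAt hU), tζ.eventually hUy, hz]
      with t ht1 ht2 ht3 ht4 ht5 ht6 ht7 ht8 ht9 ht10 ht11 ht12 hcon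
    rw [(hder0 t.1 t.2.1 ht4 ht3).2] at hcon
    obtain ⟨z0, hz0⟩ : ∃ z0, z0 = Fp2 ρ β e (fun x => j (g x)) B Λ t.1 (B i0 t.2.1) := ⟨_, rfl⟩
    rw [← hz0] at hcon ht6 ht12
    obtain ⟨ℓ', hℓ'⟩ : ∃ ℓ', ℓ' = ℓ.comp (fderiv ℝ (fun z => j (π z)) z0) := ⟨_, rfl⟩
    have hℓ'e : ∀ x, ℓ' x = ℓ (fderiv ℝ (fun z => j (π z)) z0 x) := fun x => by rw [hℓ']; rfl
    obtain ⟨W, hW⟩ : ∃ W, W = fderiv ℝ (fun z => e (B i0 z)) t.2.1 t.2.2 := ⟨_, rfl⟩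
    rw [← hW] at ht1 ht2 ht7 ht8 ht9 hcon
    have hZ := Zs_pos (ρ := ρ) (q := fun i z => e (B i z)) h1 hβ hβ0 hβs hβp (fun i => (hq i).continuous) i0
      (s := t.1) ht4
    have hcond : ∀ i z, ‖z‖ ≤ 1 → ‖e (B i z) - e (B i0 t.2.1)‖ ≤ t.1 →
        |ℓ' (j (g (B i z))) + -ℓ' (j (g (B i0 t.2.1))) - inner ℝ W (e (B i z) - e (B i0 t.2.1))| ≤
          η * t.1 * ‖W‖ := by
      intro i z _ hz2
      obtain ⟨h4, h5⟩ := ht2 (B i z) hz2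
      have h6 : ‖j (g (B i z)) - j (g (B i0 ζ))‖ < δ := by
        have := ht10 _ hz2
        rw [mem_preimage, mem_ball, dist_eq_norm] at this
        exact this
      have h7 := hδ2 z0 (j (g (B i z))) (j (g (B i0 t.2.1))) ht12 h6 ht11 (by rw [hπj]) (by rw [hπj])
      have hWn : 0 < ‖W‖ := lt_of_le_of_lt (by positivity) ht7
      have h8 := move_rec (R := fun z => j (π z)) (ℓ := ℓ) (c := -ℓ (j (g (B i0 t.2.1))))
        (η := η * ‖V‖ / 4 / ‖W‖) (C := ‖ℓ‖ * C1) (s := t.1) (w := w) (V := W) (z := z0) (f0 := j (g (B i0 t.2.1)))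
        (fu := j (g (B i z))) (x := e (B i z) - e (B i0 t.2.1)) (by
          refine h4.trans (le_of_eq ?_)
          field_simp) (by
          rw [mul_assoc]
          exact mul_le_mul_of_nonneg_left h5 (norm_nonneg _)) hwp.le h7
      rw [← hℓ'] at h8
      have e2 : ℓ' (j (g (B i z))) + (-ℓ (j (g (B i0 t.2.1))) + ℓ (j (g (B i0 t.2.1))) - ℓ' (j (g (B i0 t.2.1)))) =
          ℓ' (j (g (B i z))) + -ℓ' (j (g (B i0 t.2.1))) := by ring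
      rw [e2] at h8
      refine h8.trans ?_
      have e3 : η * ‖V‖ / 4 / ‖W‖ * t.1 * ‖W‖ = η * ‖V‖ / 4 * t.1 := by field_simp
      rw [e3, ← mul_assoc]
      have h9 : w * (‖ℓ‖ * C1) * t.1 ≤ η * ‖V‖ / 4 * t.1 := mul_le_mul_of_nonneg_right hwC ht5.1.le
      have h10 : η * ‖V‖ / 4 * t.1 + η * ‖V‖ / 4 * t.1 = η * t.1 * (‖V‖ / 2) := by ring
      have h11 : η * t.1 * (‖V‖ / 2) ≤ η * t.1 * ‖W‖ :=
        mul_le_mul_of_nonneg_left ht7.le (mul_nonneg hη0.le ht5.1.le)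
      linarith
    have b1 := ht1 hZ ℓ' _ hcond
    have b2 := val_bound (g := fun i z => j (g (B i z))) hβ hβ0 hβs h1 (fun i => (hq i).continuous) hgc ht5.1 hZ ℓ' _
      hcond
    have e1 := congrArg ℓ hcon
    rw [← hℓ'e, map_zero, map_add, map_add, map_smul, map_smul, map_sub, map_sub, smul_eq_mul, smul_eq_mul] at e1
    have b3 : |fderiv ℝ Λ (e (B i0 t.2.1)) W * (ℓ' (Gs ρ β (fun i z => e (B i z)) (fun i z => j (g (B i z))) t.1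
        (e (B i0 t.2.1))) - ℓ' (j (g (B i0 t.2.1))))| < κ := by
      rw [abs_mul]
      have b4 : |ℓ' (Gs ρ β (fun i z => e (B i z)) (fun i z => j (g (B i z))) t.1 (e (B i0 t.2.1))) -
          ℓ' (j (g (B i0 t.2.1)))| ≤ (1 + η) * t.1 * (‖V‖ + 1) := by
        rw [sub_eq_add_neg]
        refine b2.trans ?_
        exact mul_le_mul_of_nonneg_left ht8.le (mul_nonneg (by positivity) ht5.1.le)
      calc |fderiv ℝ Λ (e (B i0 t.2.1)) W| * |ℓ' (Gs ρ β (fun i z => e (B i z)) (fun i z => j (g (B i z))) t.1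
            (e (B i0 t.2.1))) - ℓ' (j (g (B i0 t.2.1)))| ≤ C * ((1 + η) * t.1 * (‖V‖ + 1)) :=
            mul_le_mul ht9.le b4 (abs_nonneg _) hCp.le
        _ = t.1 * (C * ((1 + η) * (‖V‖ + 1))) := by ring
        _ < κ := (lt_div_iff₀ (by positivity)).1 ht5.2
    have b5 := hΛ0 (e (B i0 t.2.1))
    have b6 := hΛ1 (e (B i0 t.2.1))
    obtain ⟨lm, hlm0⟩ : ∃ lm, lm = Λ (e (B i0 t.2.1)) := ⟨_, rfl⟩
    rw [← hlm0] at b5 b6 e1
    obtain ⟨x1, hx1⟩ : ∃ x1, x1 = ℓ' (fderiv ℝ (fun z => j (g (B i0 z))) t.2.1 t.2.2) := ⟨_, rfl⟩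
    obtain ⟨x2, hx2⟩ : ∃ x2, x2 = ℓ' (fderiv ℝ (Gs ρ β (fun i z => e (B i z)) (fun i z => j (g (B i z))) t.1)
      (e (B i0 t.2.1)) W) := ⟨_, rfl⟩
    rw [← hℓ'e, ← hx1] at ht6
    rw [← hx1] at e1
    rw [← hx2] at b1 e1
    have b7 : κ ≤ x1 := by
      rw [hκ]
      exact (min_le_right _ _).trans ht6.le
    have b8 : κ ≤ x2 := by
      rw [hκ]
      exact (min_le_left _ _).trans b1
    have b9 := (abs_lt.1 b3).1
    have b10 : κ ≤ (1 - lm) * x1 + lm * x2 := by nlinarith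
    linarith
  filter_upwards [hkey, tendsto_snd.eventually hball, tendsto_snd.eventually hfev, hΩev] with t ht htb htl htΩ
  have hsmt := hsm t.1 t.2 htb htl
  refine LD_of_imm (j := j) hJ (hBl i0 t.2) ?_ ?_ ?_
  · have h2 : ContinuousAt (fun x => Fp2 ρ β e (fun x => j (g x)) B Λ t.1 x) (B i0 t.2) := by
      have h3 : ContinuousAt (fun x => Gs ρ β (fun i z => e (B i z)) (fun i z => j (g (B i z))) t.1 (e x))
        (B i0 t.2) := ContinuousAt.comp (f := e) (hGs t.1 t.2 htb).continuousAt he.continuous.continuousAt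
      have h4 : Continuous fun x => Λ (e x) := hΛ.continuous.comp he.continuous
      exact hF.continuousAt.add (h4.continuousAt.smul (h3.sub hF.continuousAt))
    exact ContinuousAt.comp (g := π) (f := fun x => Fp2 ρ β e (fun x => j (g x)) B Λ t.1 x) (hπc _ htΩ) h2
  · have hbt : ∀ᶠ y in 𝓝 t.2, ‖y‖ < 1 := by
      have := isOpen_ball.mem_nhds (show t.2 ∈ ball (0 : E n) 1 by rw [mem_ball_zero_iff]; exact htb)
      filter_upwards [this] with y hy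
      rwa [mem_ball_zero_iff] at hy
    have hΩt : ∀ᶠ y in 𝓝 t.2, Fp2 ρ β e (fun x => j (g x)) B Λ t.1 (B i0 y) ∈ Ω :=
      hsmt.continuousAt (hΩ.mem_nhds htΩ)
    filter_upwards [hbt, htl.eventually, hΩt] with y hy1 hy2 hyΩ
    exact ContDiffAt.comp (g := fun z => j (π z)) y (hπs _ hyΩ) (hsm t.1 y hy1 hy2)
  · intro v hv
    have h3 := HasFDerivAt.comp (g := fun z => j (π z))
      (f := fun z => Fp2 ρ β e (fun x => j (g x)) B Λ t.1 (B i0 z)) t.2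
      ((hπs _ htΩ).differentiableAt (by simp)).hasFDerivAt (hder0 t.1 t.2 htb htl).1
    have h4 : (fun z => j (π (Fp2 ρ β e (fun x => j (g x)) B Λ t.1 (B i0 z)))) =
      (fun z => j (π z)) ∘ (fun z => Fp2 ρ β e (fun x => j (g x)) B Λ t.1 (B i0 z)) := rfl
    rw [h4, h3.fderiv]
    exact ht v hv

end Pool.Agent.H865_cl
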