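import Pool.Agent.H865_small.Low

/-!
# The main inequality, with values in a vector space of any dimension
-/

set_option autoImplicit false

open Set Filter Topology Metric Function MeasureTheory
open scoped ContDiff

noncomputable section

namespace Pool.Agent.H865_cl

open Pool.Agent.H865_small (E Zs kf om ps_zero ps_nonneg kf_cont kf_contDiff bump_supp param_smooth param_fderiv
  param_eval int_ineq int_bound Zs_smooth φ0 φ1 φ2 Adm Ti lim_i int_φ2_pos int_φ0_pos int_φ1_zero φ0_cont φ0_zero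
  φ1_cont φ1_zero φ2_cont φ2_zero)

variable {n m k : ℕ} {ρ : ℝ} {ι : Type} [Fintype ι]

/-- the average before the normalisation -/
def Ns (ρ : ℝ) (β : E n → ℝ) (q : ι → E n → E m) (g : ι → E n → E k) (s : ℝ) (p : E m) : E k :=
  ∑ i, ∫ z, (β z * kf ρ s (q i z - p)) • g i z

/-- the average -/
def Gs (ρ : ℝ) (β : E n → ℝ) (q : ι → E n → E m) (g : ι → E n → E k) (s : ℝ) (p : E m) : E k :=
  (Zs ρ β q s p)⁻¹ • Ns ρ β q g s p

section

variable {β : E n → ℝ} {q : ι → E n → E m} {g : ι → E n → E k}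

theorem Ns_smooth (hβ : Continuous β) (hβs : ∀ z, 1 < ‖z‖ → β z = 0) (hq : ∀ i, ContDiff ℝ ∞ (q i))
    (hg : ∀ i, Continuous (g i)) (s : ℝ) : ContDiff ℝ ∞ (Ns ρ β q g s) := by
  unfold Ns
  apply ContDiff.sum
  intro i _
  have h := param_smooth (P := E m) (volume : Measure (E n))
    (ContinuousLinearMap.lsmul ℝ ℝ : ℝ →L[ℝ] E k →L[ℝ] E k).flip
    (n := ⊤) (f := fun z => β z • g i z) (hβ.smul (hg i)).locallyIntegrable one_pos
    (fun z hz => by simp only [hβs z hz, zero_smul]) (g := fun p z => kf ρ s (q i z - p))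
    ((kf_contDiff s).comp (((hq i).comp contDiff_snd).sub contDiff_fst))
  have e : (fun p => ∫ z, (β z * kf ρ s (q i z - p)) • g i z) =
      fun p => ∫ z, (ContinuousLinearMap.lsmul ℝ ℝ : ℝ →L[ℝ] E k →L[ℝ] E k).flip (β z • g i z) (kf ρ s (q i z - p)) := by
    funext p
    congr 1
    funext z
    simp [smul_smul]
  rw [e]
  exact h

theorem Gs_smooth (hβ : Continuous β) (hβs : ∀ z, 1 < ‖z‖ → β z = 0) (hq : ∀ i, ContDiff ℝ ∞ (q i))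
    (hg : ∀ i, Continuous (g i)) (s : ℝ) {p : E m} (hp : Zs ρ β q s p ≠ 0) : ContDiffAt ℝ ∞ (Gs ρ β q g s) p := by
  unfold Gs
  exact ((Zs_smooth hβ hβs hq s).contDiffAt.inv hp).smul (Ns_smooth hβ hβs hq hg s).contDiffAt

/-- the weights -/
theorem ell_Ns (hβ : Continuous β) (hβs : ∀ z, 1 < ‖z‖ → β z = 0) (hq : ∀ i, Continuous (q i))
    (hg : ∀ i, Continuous (g i)) (s : ℝ) (p : E m) (ℓ : E k →L[ℝ] ℝ) (c : ℝ) :
    ℓ (Ns ρ β q g s p) + c * Zs ρ β q s p = ∑ i, ∫ z, (β z * (ℓ (g i z) + c)) * kf ρ s (q i z - p) := by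
  have hk := kf_cont (m := m) (ρ := ρ) s
  unfold Ns Zs
  rw [map_sum, Finset.mul_sum, ← Finset.sum_add_distrib]
  refine Finset.sum_congr rfl fun i _ => ?_
  have hsupp := bump_supp hβs
  have hc1 : Continuous fun z => (β z * kf ρ s (q i z - p)) • g i z := by
    have h1 := hq i
    have h2 := hg i
    exact (hβ.mul (hk.comp (by fun_prop))).smul h2
  have hi1 : Integrable (fun z => (β z * kf ρ s (q i z - p)) • g i z) :=
    hc1.integrable_of_hasCompactSupport (hsupp.mul_right.smul_right)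
  have hi2 : Integrable (fun z => β z * kf ρ s (q i z - p)) := by
    have h1 := hq i
    exact (hβ.mul (hk.comp (by fun_prop))).integrable_of_hasCompactSupport hsupp.mul_right
  rw [← ContinuousLinearMap.integral_comp_comm _ hi1, ← integral_const_mul, ← integral_add]
  · congr 1
    funext z
    rw [map_smul, smul_eq_mul]
    ring
  · exact (ℓ.integrable_comp hi1)
  · exact hi2.const_mul c

/-- the bound for the value -/
theorem val_bound (hβ : Continuous β) (hβ0 : ∀ z, 0 ≤ β z) (hβs : ∀ z, 1 < ‖z‖ → β z = 0) (h1 : ρ ^ 2 < 1)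
    (hq : ∀ i, Continuous (q i)) (hg : ∀ i, Continuous (g i)) {s : ℝ} (hs : 0 < s) {p V : E m}
    (hZ : 0 < Zs ρ β q s p) {η : ℝ} (ℓ : E k →L[ℝ] ℝ) (c : ℝ)
    (hc : ∀ i z, ‖z‖ ≤ 1 → ‖q i z - p‖ ≤ s → |ℓ (g i z) + c - inner ℝ V (q i z - p)| ≤ η * s * ‖V‖) :
    |ℓ (Gs ρ β q g s p) + c| ≤ (1 + η) * s * ‖V‖ := by
  have haZ : |ℓ (Ns ρ β q g s p) + c * Zs ρ β q s p| ≤ (1 + η) * s * ‖V‖ * Zs ρ β q s p := by
    rw [ell_Ns hβ hβs hq hg s p ℓ c]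
    calc |∑ i, ∫ z, (β z * (ℓ (g i z) + c)) * kf ρ s (q i z - p)|
        ≤ ∑ i, |∫ z, (β z * (ℓ (g i z) + c)) * kf ρ s (q i z - p)| := Finset.abs_sum_le_sum_abs _ _
      _ ≤ ∑ i, (1 + η) * s * ‖V‖ * ∫ z, β z * kf ρ s (q i z - p) :=
          Finset.sum_le_sum fun i _ => int_bound hβ hβ0 hβs h1 (hq i) hs (hc i)
      _ = (1 + η) * s * ‖V‖ * Zs ρ β q s p := by
          unfold Zs
          rw [Finset.mul_sum]
  have e1 : ℓ (Ns ρ β q g s p) + c * Zs ρ β q s p = (ℓ (Gs ρ β q g s p) + c) * Zs ρ β q s p := by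
    unfold Gs
    rw [map_smul, smul_eq_mul]
    field_simp
  rw [e1, abs_mul, abs_of_pos hZ] at haZ
  exact le_of_mul_le_mul_right haZ hZ

/-- the lower bound for the derivative -/
theorem deriv_low (hβ : Continuous β) (hβ0 : ∀ z, 0 ≤ β z) (hβs : ∀ z, 1 < ‖z‖ → β z = 0) (h1 : ρ ^ 2 < 1)
    (hq : ∀ i, ContDiff ℝ ∞ (q i)) (hg : ∀ i, Continuous (g i)) {s : ℝ} (hs : 0 < s) {p V : E m}
    (hZ : 0 < Zs ρ β q s p) {η : ℝ} (ℓ : E k →L[ℝ] ℝ) (c : ℝ)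
    (hc : ∀ i z, ‖z‖ ≤ 1 → ‖q i z - p‖ ≤ s → |ℓ (g i z) + c - inner ℝ V (q i z - p)| ≤ η * s * ‖V‖) :
    2 / (∑ i, ∫ z, β z * φ0 ρ (s⁻¹ • (q i z - p)) V) * ((∑ i, ∫ z, β z * φ2 ρ η (s⁻¹ • (q i z - p)) V) -
      (1 + η) * ‖V‖ * |∑ i, ∫ z, β z * φ1 ρ (s⁻¹ • (q i z - p)) V|) ≤ ℓ (fderiv ℝ (Gs ρ β q g s) p V) := by
  have hqc : ∀ i, Continuous (q i) := fun i => (hq i).continuous
  have hsupp := bump_supp hβs
  have hnorm : ∀ i z, ‖s⁻¹ • (q i z - p)‖ ^ 2 = ‖q i z - p‖ ^ 2 / s ^ 2 := by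
    intro i z
    rw [norm_smul, norm_inv, Real.norm_eq_abs, abs_of_pos hs]
    field_simp
  have hinner : ∀ i z, inner ℝ (s⁻¹ • (q i z - p)) V = s⁻¹ * inner ℝ (q i z - p) V := by
    intro i z
    rw [inner_smul_left]; simp
  have hZe : Zs ρ β q s p = ∑ i, ∫ z, β z * φ0 ρ (s⁻¹ • (q i z - p)) V := by
    unfold Zs
    refine Finset.sum_congr rfl fun i _ => integral_congr_ae (Eventually.of_forall fun z => ?_)
    simp only [φ0, kf, hnorm]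
  set A1 := ∑ i, ∫ z, β z * φ1 ρ (s⁻¹ • (q i z - p)) V with hA1
  set A2 := ∑ i, ∫ z, β z * φ2 ρ η (s⁻¹ • (q i z - p)) V with hA2
  rw [← hZe]
  -- the function `a`
  obtain ⟨a, ha⟩ : ∃ a : E m → ℝ, a = fun p => ∑ i, ∫ z, (β z * (ℓ (g i z) + c)) * kf ρ s (q i z - p) := ⟨_, rfl⟩
  have hxc : ∀ i, Continuous fun z => ℓ (g i z) + c := fun i => (ℓ.continuous.comp (hg i)).add continuous_const
  have hwc : ∀ i, Continuous fun z => β z * (ℓ (g i z) + c) := fun i => hβ.mul (hxc i)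
  have hws : ∀ i, HasCompactSupport fun z => β z * (ℓ (g i z) + c) := fun i => hsupp.mul_right
  have hac : ∀ p, ℓ (Ns ρ β q g s p) + c * Zs ρ β q s p = a p := fun p => by
    rw [ha]; exact ell_Ns hβ hβs hqc hg s p ℓ c
  have hda : HasFDerivAt a (∑ i, ∫ z, (β z * (ℓ (g i z) + c)) • (- fderiv ℝ (kf ρ s) (q i z - p))) p := by
    rw [ha]
    apply HasFDerivAt.fun_sum
    intro i _
    exact param_fderiv (kf_contDiff s) (hqc i) (hwc i) (hws i) p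
  have hdZ : HasFDerivAt (Zs ρ β q s) (∑ i, ∫ z, β z • (- fderiv ℝ (kf ρ s) (q i z - p))) p := by
    unfold Zs
    apply HasFDerivAt.fun_sum
    intro i _
    exact param_fderiv (kf_contDiff s) (hqc i) hβ hsupp p
  have haV : (∑ i, ∫ z, (β z * (ℓ (g i z) + c)) • (- fderiv ℝ (kf ρ s) (q i z - p))) V =
      ∑ i, ∫ z, (β z * (ℓ (g i z) + c)) * (om ρ (‖q i z - p‖ ^ 2 / s ^ 2) * (2 / s ^ 2) * inner ℝ (q i z - p) V) := by
    rw [_root_.sum_apply]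
    exact Finset.sum_congr rfl fun i _ => param_eval (hqc i) (hwc i) (hws i) s p V
  have hZV : (∑ i, ∫ z, β z • (- fderiv ℝ (kf ρ s) (q i z - p))) V = 2 / s * A1 := by
    rw [_root_.sum_apply, hA1, Finset.mul_sum]
    refine Finset.sum_congr rfl fun i _ => ?_
    rw [param_eval (hqc i) hβ hsupp s p V, ← integral_const_mul]
    congr 1
    funext z
    simp only [φ1, hnorm, hinner]
    field_simp
  have hA2le : 2 * A2 ≤ ∑ i, ∫ z, (β z * (ℓ (g i z) + c)) *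
      (om ρ (‖q i z - p‖ ^ 2 / s ^ 2) * (2 / s ^ 2) * inner ℝ (q i z - p) V) := by
    rw [hA2, Finset.mul_sum]
    exact Finset.sum_le_sum fun i _ => int_ineq hβ hβ0 hβs h1 (hqc i) (hxc i) hs (hc i)
  -- the derivative of the quotient
  have hGd : DifferentiableAt ℝ (Gs ρ β q g s) p := (Gs_smooth hβ hβs hq hg s hZ.ne').differentiableAt (by simp)
  have hquot : HasFDerivAt (fun p' => ℓ (Gs ρ β q g s p') + c) (ℓ.comp (fderiv ℝ (Gs ρ β q g s) p)) p :=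
    (ℓ.hasFDerivAt.comp p hGd.hasFDerivAt).add_const c
  have hmul : HasFDerivAt (fun p' => Zs ρ β q s p' * (ℓ (Gs ρ β q g s p') + c)) _ p := hdZ.mul hquot
  have heq : (fun p' => Zs ρ β q s p' * (ℓ (Gs ρ β q g s p') + c)) =ᶠ[𝓝 p] a := by
    have hev : ∀ᶠ p' in 𝓝 p, 0 < Zs ρ β q s p' :=
      (Zs_smooth (ρ := ρ) hβ hβs hq s).continuous.continuousAt.eventually (lt_mem_nhds hZ)
    filter_upwards [hev] with p' hp'
    rw [← hac]
    unfold Gs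
    rw [map_smul, smul_eq_mul]
    field_simp
  have hu := hmul.unique (hda.congr_of_eventuallyEq heq)
  have hu2 := congrArg (fun T : E m →L[ℝ] ℝ => T V) hu
  simp only [_root_.add_apply, _root_.smul_apply, smul_eq_mul, ContinuousLinearMap.comp_apply] at hu2
  rw [hZV, haV] at hu2
  have hap : Zs ρ β q s p * (ℓ (Gs ρ β q g s p) + c) = a p := heq.self_of_nhds
  have hval : |ℓ (Gs ρ β q g s p) + c| ≤ (1 + η) * s * ‖V‖ := val_bound hβ hβ0 hβs h1 hqc hg hs hZ ℓ c hc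
  have hfin : 2 * A2 - (1 + η) * s * ‖V‖ * (2 / s * |A1|) ≤ Zs ρ β q s p * ℓ (fderiv ℝ (Gs ρ β q g s) p V) := by
    have h2 : |(ℓ (Gs ρ β q g s p) + c) * (2 / s * A1)| ≤ (1 + η) * s * ‖V‖ * (2 / s * |A1|) := by
      rw [abs_mul, abs_mul, abs_of_pos (show 0 < 2 / s by positivity)]
      exact mul_le_mul_of_nonneg_right hval (by positivity)
    have h3 := (abs_le.1 h2).2
    linarith
  have hfin2 : 2 * (A2 - (1 + η) * ‖V‖ * |A1|) ≤ Zs ρ β q s p * ℓ (fderiv ℝ (Gs ρ β q g s) p V) := by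
    refine le_trans (le_of_eq ?_) hfin
    field_simp
  rw [div_mul_eq_mul_div, div_le_iff₀ hZ]
  linarith


end

/-- the uniform lower bound -/
theorem main_low (h1 : ρ ^ 2 < 1) {η : ℝ} (hA : Adm n ρ η)
    {β : E n → ℝ} (hβ : Continuous β) (hβ0 : ∀ z, 0 ≤ β z) (hβs : ∀ z, 1 < ‖z‖ → β z = 0)
    {q : ι → E n → E m} {g : ι → E n → E k} (hq : ∀ i, ContDiff ℝ ∞ (q i)) (hg : ∀ i, Continuous (g i))
    (hqi : ∀ i, Injective (q i)) (hqd : ∀ i z, Injective (fderiv ℝ (q i) z)) (i0 : ι) {ζ v : E n} (hζ : ‖ζ‖ < 1)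
    (hβζ : 0 < β ζ) (hv : v ≠ 0)
    (hd : ∀ i, (∃ θ : E n → E n, ContinuousAt θ ζ ∧ (∀ᶠ y in 𝓝 ζ, q i (θ y) = q i0 y) ∧
      ∃ w, fderiv ℝ (q i) (θ ζ) w = fderiv ℝ (q i0) ζ v) ∨ q i0 ζ ∉ q i '' closedBall 0 1) :
    ∃ c0 : ℝ, 0 < c0 ∧ ∀ᶠ t : ℝ × E n × E n in 𝓝[>] 0 ×ˢ 𝓝 ζ ×ˢ 𝓝 v, 0 < Zs ρ β q t.1 (q i0 t.2.1) →
      ∀ (ℓ : E k →L[ℝ] ℝ) (c : ℝ), (∀ i z, ‖z‖ ≤ 1 → ‖q i z - q i0 t.2.1‖ ≤ t.1 →
        |ℓ (g i z) + c - inner ℝ (fderiv ℝ (q i0) t.2.1 t.2.2) (q i z - q i0 t.2.1)| ≤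
          η * t.1 * ‖fderiv ℝ (q i0) t.2.1 t.2.2‖) →
        c0 ≤ ℓ (fderiv ℝ (Gs ρ β q g t.1) (q i0 t.2.1) (fderiv ℝ (q i0) t.2.1 t.2.2)) := by
  have hex := fun i => lim_i hβ hβ0 hβs (hq i) (hqi i) (hqd i) (hq i0) (hqd i0) (hd i)
  choose b J w hb hJ hJw hbpos hlim using hex
  obtain ⟨V, hV⟩ : ∃ V, V = fderiv ℝ (q i0) ζ v := ⟨_, rfl⟩
  have hV0 : V ≠ 0 := by
    intro h
    apply hv
    apply hqd i0 ζ
    rw [map_zero, ← hV, h]
  have hw0 : ∀ i, w i ≠ 0 := by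
    intro i h
    apply hV0
    rw [hV, ← hJw i, h, map_zero]
  rw [← hV] at hJw hlim
  have hb0 : 0 < b i0 := hbpos i0 ⟨ζ, hζ, rfl, hβζ⟩
  have hL2 : 0 < ∑ i, b i * ∫ ξ, φ2 ρ η (J i ξ) V := by
    refine Finset.sum_pos' (fun i _ => ?_) ⟨i0, Finset.mem_univ _, ?_⟩
    · have := int_φ2_pos hA (hJ i) (hw0 i)
      rw [hJw] at this
      exact mul_nonneg (hb i) this.le
    · have := int_φ2_pos hA (hJ i0) (hw0 i0)
      rw [hJw] at this
      exact mul_pos hb0 this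
  have hL0 : 0 < ∑ i, b i * ∫ ξ, φ0 ρ (J i ξ) V := by
    refine Finset.sum_pos' (fun i _ => ?_) ⟨i0, Finset.mem_univ _, ?_⟩
    · exact mul_nonneg (hb i) (int_φ0_pos h1 (hJ i) V).le
    · exact mul_pos hb0 (int_φ0_pos h1 (hJ i0) V)
  have hL1 : ∑ i, b i * ∫ ξ, φ1 ρ (J i ξ) V = 0 :=
    Finset.sum_eq_zero fun i _ => by rw [int_φ1_zero, mul_zero]
  have t0 := tendsto_finsetSum Finset.univ fun i _ => hlim i (φ0 ρ) φ0_cont (φ0_zero h1)
  have t1 := tendsto_finsetSum Finset.univ fun i _ => hlim i (φ1 ρ) φ1_cont (φ1_zero h1)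
  have t2 := tendsto_finsetSum Finset.univ fun i _ => hlim i (φ2 ρ η) (φ2_cont η) (φ2_zero h1 η)
  rw [hL1] at t1
  have tV : Tendsto (fun t : ℝ × E n × E n => fderiv ℝ (q i0) t.2.1 t.2.2) (𝓝[>] 0 ×ˢ 𝓝 ζ ×ˢ 𝓝 v)
      (𝓝 V) := by
    have h1 : Continuous fun p : E n × E n => fderiv ℝ (q i0) p.1 p.2 :=
      (((hq i0).continuous_fderiv (by simp)).comp continuous_fst).clm_apply continuous_snd
    have h2 := h1.tendsto (ζ, v)
    rw [nhds_prod_eq] at h2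
    rw [hV]
    exact h2.comp tendsto_snd
  obtain ⟨L2, hL2e⟩ : ∃ L2, L2 = ∑ i, b i * ∫ ξ, φ2 ρ η (J i ξ) V := ⟨_, rfl⟩
  obtain ⟨L0, hL0e⟩ : ∃ L0, L0 = ∑ i, b i * ∫ ξ, φ0 ρ (J i ξ) V := ⟨_, rfl⟩
  rw [← hL2e] at t2 hL2
  rw [← hL0e] at t0 hL0
  have tR := (((tendsto_const_nhds (x := (2 : ℝ))).div t0 hL0.ne')).mul (t2.sub (((tendsto_const_nhds (x := 1 + η)).mul tV.norm).mul t1.abs))
  have hlimval : 2 / L0 * (L2 - (1 + η) * ‖V‖ * |0|) = 2 * L2 / L0 := by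
    rw [abs_zero, mul_zero, sub_zero]; ring
  rw [hlimval] at tR
  refine ⟨L2 / L0, by positivity, ?_⟩
  have hlt : L2 / L0 < 2 * L2 / L0 := by
    have : 0 < L2 / L0 := by positivity
    have e : 2 * L2 / L0 = L2 / L0 + L2 / L0 := by ring
    linarith
  have hpos : ∀ᶠ t : ℝ × E n × E n in 𝓝[>] 0 ×ˢ 𝓝 ζ ×ˢ 𝓝 v, 0 < t.1 :=
    (tendsto_fst (f := 𝓝[>] (0 : ℝ)) (g := 𝓝 ζ ×ˢ 𝓝 v)).eventually self_mem_nhdsWithin
  filter_upwards [tR.eventually (lt_mem_nhds hlt), hpos] with t ht hs hZ ℓ c hc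
  have h3 := deriv_low hβ hβ0 hβs h1 hq hg hs hZ ℓ c hc
  refine le_trans (le_of_lt ht) (le_trans (le_of_eq ?_) h3)
  have hsn : 0 < t.1 ^ n := by positivity
  have e : ∀ φ : E m → E m → ℝ, ∑ i, ∫ z, β z * φ (t.1⁻¹ • (q i z - q i0 t.2.1)) (fderiv ℝ (q i0) t.2.1 t.2.2) =
      t.1 ^ n * ∑ i, Ti β φ (q i) t.1 (q i0 t.2.1) (fderiv ℝ (q i0) t.2.1 t.2.2) := by
    intro φ
    rw [Finset.mul_sum]
    refine Finset.sum_congr rfl fun i _ => ?_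
    unfold Ti
    rw [← mul_assoc, mul_inv_cancel₀ hsn.ne', one_mul]
  rw [e, e, e, abs_mul, abs_of_pos hsn]
  simp only [Pi.div_apply]
  field_simp

end Pool.Agent.H865_cl
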